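import Pool.Agent.RSZ.Defs

set_option autoImplicit false

/-!
# Module Bonf: Bonferroni type inequality for `∏ (1 - 2 x_p)`, `0 ≤ x_p ≤ 1`

`es_insert`: `es (insert a E) x (j+1) = es E x (j+1) + x a * es E x j` (`Finset.powersetCard_succ_insert`).
`bonf` by induction on `E` for all `b`: `R_b = Pb - ∏`, `Pb (insert a E) b = Pb E b - 2 x_a Pb E (b-1)`, so for `b ≥ 1`
`R_b(insert) = (1 - 2x) R_b(E) + 2x (R_b(E) - R_{b-1}(E)) = (1 - 2x) R_b(E) + 2 x (-2)^b es E b`, and `|1 - 2x| ≤ 1`; the same formula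
for `b = 0` (`R_0(insert) = 1 - (1-2x)∏ = (1-2x)(1-∏) + 2x`).
`es_le`: `es E x j ≤ (∑ x)^j / j!`: induction on `E`, or Mathlib (`Finset.esymm`, Newton/Maclaurin), or
`(∑ x)^j ≥ j! es` from the multinomial theorem; by induction: `(s + x)^(j+1)/(j+1)! ≥ s^(j+1)/(j+1)! + x s^j/j!` (Bernoulli).
`prod_close`: `|∏ F_i - ∏ P_i| ≤ ∏ (1 + R_i) - 1` if `|F_i| ≤ 1`, `|F_i - P_i| ≤ R_i`: induction.
-/

open Filter Topology MeasureTheory ProbabilityTheory
open scoped Nat

namespace Pool.Agent.RSG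

open Pool.Agent.GaussPret Pool.Agent.MRG

theorem es_zero {ι : Type*} (E : Finset ι) (x : ι → ℝ) : es E x 0 = 1 := by
  simp [es]

theorem es_nonneg {ι : Type*} (E : Finset ι) {x : ι → ℝ} (hx : ∀ p ∈ E, 0 ≤ x p) (j : ℕ) :
    0 ≤ es E x j := by
  refine Finset.sum_nonneg fun d hd => Finset.prod_nonneg fun p hp => ?_
  exact hx p ((Finset.mem_powersetCard.1 hd).1 hp)

private theorem es_empty {ι : Type*} (x : ι → ℝ) (j : ℕ) : es (∅ : Finset ι) x (j + 1) = 0 := by
  unfold es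
  rw [Finset.powersetCard_eq_empty.2 (by simp), Finset.sum_empty]

private theorem es_insert {ι : Type*} [DecidableEq ι] {E : Finset ι} {a : ι} (ha : a ∉ E)
    (x : ι → ℝ) (j : ℕ) : es (insert a E) x (j + 1) = es E x (j + 1) + x a * es E x j := by
  unfold es
  rw [Finset.powersetCard_succ_insert ha, Finset.sum_union, Finset.sum_image, Finset.mul_sum]
  · congr 1
    refine Finset.sum_congr rfl fun d hd => ?_
    rw [Finset.prod_insert fun h => ha ((Finset.mem_powersetCard.1 hd).1 h)]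
  · intro d hd e he hde
    have h1 : a ∉ d := fun h => ha ((Finset.mem_powersetCard.1 hd).1 h)
    have h2 : a ∉ e := fun h => ha ((Finset.mem_powersetCard.1 he).1 h)
    have h3 : (insert a d).erase a = (insert a e).erase a := congrArg (fun s => s.erase a) hde
    rwa [Finset.erase_insert h1, Finset.erase_insert h2] at h3
  · rw [Finset.disjoint_left]
    intro d hd he
    obtain ⟨e, -, rfl⟩ := Finset.mem_image.1 he
    exact ha ((Finset.mem_powersetCard.1 hd).1 (Finset.mem_insert_self a e))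

private theorem Pb_zero {ι : Type*} (E : Finset ι) (x : ι → ℝ) : Pb E x 0 = 1 := by
  simp [Pb, es_zero]

private theorem Pb_succ {ι : Type*} (E : Finset ι) (x : ι → ℝ) (b : ℕ) :
    Pb E x (b + 1) = Pb E x b + (-2) ^ (b + 1) * es E x (b + 1) := by
  unfold Pb
  rw [Finset.sum_range_succ]

private theorem Pb_insert {ι : Type*} [DecidableEq ι] {E : Finset ι} {a : ι} (ha : a ∉ E)
    (x : ι → ℝ) (b : ℕ) : Pb (insert a E) x (b + 1) = Pb E x (b + 1) - 2 * x a * Pb E x b := by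
  unfold Pb
  rw [Finset.sum_range_succ', Finset.sum_range_succ' _ (b + 1), es_zero, es_zero, Finset.mul_sum]
  have h1 : ∑ j ∈ Finset.range (b + 1), (-2 : ℝ) ^ (j + 1) * es (insert a E) x (j + 1) =
      ∑ j ∈ Finset.range (b + 1), (-2 : ℝ) ^ (j + 1) * es E x (j + 1) -
      ∑ j ∈ Finset.range (b + 1), 2 * x a * ((-2) ^ j * es E x j) := by
    rw [← Finset.sum_sub_distrib]
    refine Finset.sum_congr rfl fun j _ => ?_
    rw [es_insert ha]
    ring
  rw [h1]
  ring

theorem bonf {ι : Type*} (E : Finset ι) {x : ι → ℝ} (hx : ∀ p ∈ E, 0 ≤ x p ∧ x p ≤ 1) (b : ℕ) :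
    |∏ p ∈ E, (1 - 2 * x p) - Pb E x b| ≤ 2 ^ (b + 1) * es E x (b + 1) := by
  classical
  induction E using Finset.induction_on generalizing b with
  | empty =>
    have h1 : ∀ b, Pb (∅ : Finset ι) x b = 1 := by
      intro b
      induction b with
      | zero => exact Pb_zero _ _
      | succ b ih => rw [Pb_succ, es_empty, ih]; simp
    rw [h1, es_empty]
    simp
  | @insert a E ha ih =>
    have hxa := hx a (Finset.mem_insert_self a E)
    have hxE : ∀ p ∈ E, 0 ≤ x p ∧ x p ≤ 1 := fun p hp => hx p (Finset.mem_insert_of_mem hp)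
    have h1 : |1 - 2 * x a| ≤ 1 := by
      rw [abs_le]
      constructor <;> linarith [hxa.1, hxa.2]
    rw [Finset.prod_insert ha, es_insert ha]
    rcases b with _ | b
    · rw [Pb_zero, es_zero]
      have h2 := ih hxE 0
      rw [Pb_zero] at h2
      have h3 : (1 - 2 * x a) * ∏ p ∈ E, (1 - 2 * x p) - 1 =
          (1 - 2 * x a) * (∏ p ∈ E, (1 - 2 * x p) - 1) + -(2 * x a) := by ring
      rw [h3]
      refine (abs_add_le _ _).trans ?_
      rw [abs_mul, abs_neg, abs_of_nonneg (show (0 : ℝ) ≤ 2 * x a by linarith [hxa.1])]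
      have h4 : |1 - 2 * x a| * |∏ p ∈ E, (1 - 2 * x p) - 1| ≤
          1 * (2 ^ (0 + 1) * es E x (0 + 1)) :=
        mul_le_mul h1 h2 (abs_nonneg _) zero_le_one
      norm_num at h4 ⊢
      linarith
    · rw [Pb_insert ha]
      have h2 := ih hxE (b + 1)
      have h3 : (1 - 2 * x a) * ∏ p ∈ E, (1 - 2 * x p) - (Pb E x (b + 1) - 2 * x a * Pb E x b) =
          (1 - 2 * x a) * (∏ p ∈ E, (1 - 2 * x p) - Pb E x (b + 1)) +
            -(2 * x a * ((-2) ^ (b + 1) * es E x (b + 1))) := by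
        rw [Pb_succ]
        ring
      rw [h3]
      refine (abs_add_le _ _).trans ?_
      have h5 := es_nonneg E (fun p hp => (hxE p hp).1) (b + 1)
      have h6 : |-(2 * x a * ((-2) ^ (b + 1) * es E x (b + 1)))| =
          2 * x a * (2 ^ (b + 1) * es E x (b + 1)) := by
        rw [abs_neg, abs_mul, abs_of_nonneg (show (0 : ℝ) ≤ 2 * x a by linarith [hxa.1]), abs_mul,
          abs_pow, abs_neg, abs_of_nonneg h5, abs_of_nonneg (show (0 : ℝ) ≤ 2 by norm_num)]
      rw [h6, abs_mul]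
      have h4 : |1 - 2 * x a| * |∏ p ∈ E, (1 - 2 * x p) - Pb E x (b + 1)| ≤
          1 * (2 ^ (b + 1 + 1) * es E x (b + 1 + 1)) :=
        mul_le_mul h1 h2 (abs_nonneg _) zero_le_one
      have h7 : (2 : ℝ) ^ (b + 1 + 1) * (es E x (b + 1 + 1) + x a * es E x (b + 1)) =
          1 * (2 ^ (b + 1 + 1) * es E x (b + 1 + 1)) +
            2 * x a * (2 ^ (b + 1) * es E x (b + 1)) := by ring
      rw [h7]
      linarith

private theorem pow_add_aux {s y : ℝ} (hs : 0 ≤ s) (hy : 0 ≤ y) (j : ℕ) :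
    s ^ (j + 1) + (j + 1) * y * s ^ j ≤ (s + y) ^ (j + 1) := by
  induction j with
  | zero => simp
  | succ j ih =>
    rw [pow_succ (s + y) (j + 1)]
    have h1 := mul_le_mul_of_nonneg_right ih (show 0 ≤ s + y by positivity)
    refine le_trans ?_ h1
    have h2 : (s ^ (j + 1) + ((j : ℝ) + 1) * y * s ^ j) * (s + y) =
        s ^ (j + 1 + 1) + (((j + 1 : ℕ) : ℝ) + 1) * y * s ^ (j + 1) +
          ((j : ℝ) + 1) * y * y * s ^ j := by
      push_cast
      ring
    rw [h2]
    have h3 : 0 ≤ ((j : ℝ) + 1) * y * y * s ^ j := by positivity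
    linarith

theorem es_le {ι : Type*} (E : Finset ι) {x : ι → ℝ} (hx : ∀ p ∈ E, 0 ≤ x p) (j : ℕ) :
    es E x j ≤ (∑ p ∈ E, x p) ^ j / (j ! : ℝ) := by
  classical
  induction E using Finset.induction_on generalizing j with
  | empty =>
    rcases j with _ | j
    · simp [es_zero]
    · rw [es_empty]
      simp
  | @insert a E ha ih =>
    have hxa := hx a (Finset.mem_insert_self a E)
    have hxE : ∀ p ∈ E, 0 ≤ x p := fun p hp => hx p (Finset.mem_insert_of_mem hp)
    have hs : 0 ≤ ∑ p ∈ E, x p := Finset.sum_nonneg hxE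
    rcases j with _ | j
    · simp [es_zero]
    · rw [es_insert ha, Finset.sum_insert ha]
      have h1 := ih hxE (j + 1)
      have h2 := mul_le_mul_of_nonneg_left (ih hxE j) hxa
      refine (add_le_add h1 h2).trans ?_
      have h3 := pow_add_aux hs hxa j
      have hf : (0 : ℝ) < (j + 1)! := by exact_mod_cast Nat.factorial_pos _
      have hf' : (0 : ℝ) < j ! := by exact_mod_cast Nat.factorial_pos _
      have h4 : (∑ p ∈ E, x p) ^ (j + 1) / ((j + 1)! : ℝ) + x a * ((∑ p ∈ E, x p) ^ j / (j ! : ℝ)) =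
          ((∑ p ∈ E, x p) ^ (j + 1) + (j + 1) * x a * (∑ p ∈ E, x p) ^ j) / ((j + 1)! : ℝ) := by
        rw [Nat.factorial_succ]
        push_cast
        field_simp
      rw [h4, add_comm (x a)]
      exact div_le_div_of_nonneg_right h3 hf.le

theorem sum_es_le {ι : Type*} (E : Finset ι) {x : ι → ℝ} (hx : ∀ p ∈ E, 0 ≤ x p) (b : ℕ) :
    ∑ j ∈ Finset.range (b + 1), 2 ^ j * es E x j ≤ Real.exp (2 * ∑ p ∈ E, x p) := by
  have hs : 0 ≤ ∑ p ∈ E, x p := Finset.sum_nonneg hx
  refine le_trans (Finset.sum_le_sum fun j _ => ?_)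
    (Real.sum_le_exp_of_nonneg (show 0 ≤ 2 * ∑ p ∈ E, x p by positivity) (b + 1))
  have h1 := mul_le_mul_of_nonneg_left (es_le E hx j) (show (0 : ℝ) ≤ 2 ^ j by positivity)
  refine h1.trans (le_of_eq ?_)
  rw [mul_pow]
  ring

theorem prod_close {ι : Type*} (I : Finset ι) {F P R : ι → ℝ} (hF : ∀ i ∈ I, |F i| ≤ 1)
    (h : ∀ i ∈ I, |F i - P i| ≤ R i) :
    |∏ i ∈ I, F i - ∏ i ∈ I, P i| ≤ ∏ i ∈ I, (1 + R i) - 1 := by
  classical
  induction I using Finset.induction_on with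
  | empty => simp
  | @insert a I ha ih =>
    have h1 := ih (fun i hi => hF i (Finset.mem_insert_of_mem hi))
      (fun i hi => h i (Finset.mem_insert_of_mem hi))
    have hFa := hF a (Finset.mem_insert_self a I)
    have hRa := h a (Finset.mem_insert_self a I)
    have hR0 : 0 ≤ R a := (abs_nonneg _).trans hRa
    have hFI : |∏ i ∈ I, F i| ≤ 1 := by
      rw [Finset.abs_prod]
      exact Finset.prod_le_one (fun i _ => abs_nonneg _)
        fun i hi => hF i (Finset.mem_insert_of_mem hi)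
    have hPI : |∏ i ∈ I, P i| ≤ ∏ i ∈ I, (1 + R i) := by
      have h2 : ∏ i ∈ I, P i = ∏ i ∈ I, F i + -(∏ i ∈ I, F i - ∏ i ∈ I, P i) := by ring
      rw [h2]
      refine (abs_add_le _ _).trans ?_
      rw [abs_neg]
      linarith
    rw [Finset.prod_insert ha, Finset.prod_insert ha, Finset.prod_insert ha]
    have h3 : F a * ∏ i ∈ I, F i - P a * ∏ i ∈ I, P i =
        F a * (∏ i ∈ I, F i - ∏ i ∈ I, P i) + (F a - P a) * ∏ i ∈ I, P i := by ring
    rw [h3]
    refine (abs_add_le _ _).trans ?_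
    rw [abs_mul, abs_mul]
    have h4 : |F a| * |∏ i ∈ I, F i - ∏ i ∈ I, P i| ≤ 1 * (∏ i ∈ I, (1 + R i) - 1) :=
      mul_le_mul hFa h1 (abs_nonneg _) zero_le_one
    have h5 : |F a - P a| * |∏ i ∈ I, P i| ≤ R a * ∏ i ∈ I, (1 + R i) :=
      mul_le_mul hRa hPI (abs_nonneg _) hR0
    have h6 : (1 + R a) * ∏ i ∈ I, (1 + R i) - 1 =
        1 * (∏ i ∈ I, (1 + R i) - 1) + R a * ∏ i ∈ I, (1 + R i) := by ring
    rw [h6]
    exact add_le_add h4 h5

end Pool.Agent.RSG
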