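import Pool.Agent.RSZ.Res

set_option autoImplicit false

/-!
# Module Cd: the number of `n` in a class mod `q` such that all `p ∈ d` divide the shifted product

`xh S n p = ∑_{h ∈ S} [p ∣ n + h]` for `Ok` primes (at most one `h`).  So
`∑_{n ∈ ball r, q ∣ n - a} ∏_{p ∈ d} xh S n p = ∑_{σ ∈ d.pi (fun _ => S)} #{n ∈ ball r : q ∣ n - a, ∀ p ∈ d, p ∣ n + σ p}`
(`Finset.prod_sum`), `#S ^ #d` terms, each by `crt` and `card_res` equal to `π r^2/(nm q ∏ nm p) + O(r)`
(`nm_mul`; `nm (q ∏ p) ≤ nm q * D ≤ r^2`).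
`good_sum`: sum over the terms of the divisor sum; `#S ^ #d ≤ D * ∏_{p ∈ d} kn S p` since `∏ nm p ≤ D`.
-/

open Filter Topology MeasureTheory ProbabilityTheory

namespace Pool.Agent.RSG

open Pool.Agent.GaussPret Pool.Agent.MRG

/-- at most one shift is divisible by `p` -/
private theorem xh_eq {S : Finset GaussianInt} {q : GaussianInt} {p : P1} (h : Ok S q p)
    (n : GaussianInt) [∀ x : GaussianInt, Decidable ((p : GaussianInt) ∣ n + x)] :
    xh S n p = ∑ x ∈ S, if (p : GaussianInt) ∣ n + x then (1 : ℝ) else 0 := by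
  classical
  unfold xh
  by_cases hh : ht S n p
  · rw [if_pos hh]
    obtain ⟨x, hx, hd⟩ := hh
    rw [Finset.sum_eq_single x]
    · rw [if_pos hd]
    · intro y hy hne
      rw [if_neg]
      intro hd'
      apply h.2.1 x hx y hy hne.symm
      have := dvd_sub hd hd'
      rwa [add_sub_add_left_eq_sub] at this
    · intro hx'
      exact absurd hx hx'
  · rw [if_neg hh]
    symm
    apply Finset.sum_eq_zero
    intro x hx
    rw [if_neg]
    intro hd
    exact hh ⟨x, hx, hd⟩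

private theorem nm_prod (d : Finset P1) :
    nm (∏ p ∈ d, (p : GaussianInt)) = ∏ p ∈ d, nm (p : GaussianInt) := by
  classical
  induction d using Finset.induction_on with
  | empty =>
    simp [nm]
  | insert a s ha ih =>
    rw [Finset.prod_insert ha, Finset.prod_insert ha, nm_mul, ih]

private theorem nm_P1_pos (p : P1) : 0 < nm (p : GaussianInt) := by
  rw [nm_eq]
  have h : GaussianInt.toComplex (p : GaussianInt) ≠ 0 := by
    intro h
    exact P1_ne_zero p (GaussianInt.toComplex_eq_zero.1 h)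
  positivity

open scoped Classical in
/-- expansion of the sum -/
private theorem sum_exp (S : Finset GaussianInt) (q : GaussianInt) (B : Finset GaussianInt)
    (d : Finset P1) (hd : ∀ p ∈ d, Ok S q p) :
    ∑ n ∈ B, ∏ p ∈ d, xh S n p = ∑ σ ∈ d.pi (fun _ => S),
      ((B.filter (fun n => ∀ p, ∀ h : p ∈ d, (p : GaussianInt) ∣ n + σ p h)).card : ℝ) := by
  have h1 : ∀ n ∈ B, ∏ p ∈ d, xh S n p = ∑ σ ∈ d.pi (fun _ => S),
      if (∀ p, ∀ h : p ∈ d, (p : GaussianInt) ∣ n + σ p h) then (1 : ℝ) else 0 := by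
    intro n _
    have h2 : ∏ p ∈ d, xh S n p = ∏ p ∈ d, ∑ x ∈ S,
        if (p : GaussianInt) ∣ n + x then (1 : ℝ) else 0 :=
      Finset.prod_congr rfl fun p hp => xh_eq (hd p hp) n
    rw [h2, Finset.prod_sum]
    refine Finset.sum_congr rfl fun σ _ => ?_
    by_cases hσ : ∀ p, ∀ h : p ∈ d, (p : GaussianInt) ∣ n + σ p h
    · rw [if_pos hσ]
      apply Finset.prod_eq_one
      intro x _
      rw [if_pos (hσ x.1 x.2)]
    · rw [if_neg hσ]
      push Not at hσ
      obtain ⟨p, hp, hnd⟩ := hσ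
      apply Finset.prod_eq_zero (Finset.mem_attach d ⟨p, hp⟩)
      rw [if_neg hnd]
  rw [Finset.sum_congr rfl h1, Finset.sum_comm]
  refine Finset.sum_congr rfl fun σ _ => ?_
  rw [Finset.card_filter]
  push_cast
  rfl

open scoped Classical in
theorem count_d : ∃ K : ℝ, 0 < K ∧ ∀ (S : Finset GaussianInt) (q a : GaussianInt) (d : Finset P1)
    (r : ℝ), q ≠ 0 → (∀ p ∈ d, Ok S q p) → nm q * ∏ p ∈ d, nm (p : GaussianInt) ≤ r ^ 2 → 1 ≤ r →
    |∑ n ∈ (ball r).filter (fun n => q ∣ n - a), ∏ p ∈ d, xh S n p -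
        Real.pi * r ^ 2 / nm q * ∏ p ∈ d, kn S p| ≤ K * r * (S.card : ℝ) ^ d.card := by
  obtain ⟨K, hK, hres⟩ := card_res
  refine ⟨K, hK, fun S q a d r hq hd hr hr1 => ?_⟩
  rw [sum_exp S q _ d hd]
  have hPpos : 0 < ∏ p ∈ d, nm (p : GaussianInt) := Finset.prod_pos fun p _ => nm_P1_pos p
  have hmain : Real.pi * r ^ 2 / nm q * ∏ p ∈ d, kn S p = ∑ _σ ∈ d.pi (fun _ => S),
      Real.pi * r ^ 2 / (nm q * ∏ p ∈ d, nm (p : GaussianInt)) := by
    rw [Finset.sum_const, Finset.card_pi, Finset.prod_const, nsmul_eq_mul]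
    push_cast
    have : ∏ p ∈ d, kn S p = (S.card : ℝ) ^ d.card / ∏ p ∈ d, nm (p : GaussianInt) := by
      unfold kn
      rw [Finset.prod_div_distrib, Finset.prod_const]
    rw [this, div_mul_div_comm]
    ring
  rw [hmain, ← Finset.sum_sub_distrib]
  have hterm : ∀ σ ∈ d.pi (fun _ => S),
      |((((ball r).filter (fun n => q ∣ n - a)).filter
        (fun n => ∀ p, ∀ h : p ∈ d, (p : GaussianInt) ∣ n + σ p h)).card : ℝ) -
        Real.pi * r ^ 2 / (nm q * ∏ p ∈ d, nm (p : GaussianInt))| ≤ K * r := by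
    intro σ _
    obtain ⟨b, hb⟩ := crt q a hq d (fun p hp => (hd p hp).1)
      (fun p => if h : p ∈ d then σ p h else 0)
    have hD0 : q * ∏ p ∈ d, (p : GaussianInt) ≠ 0 :=
      mul_ne_zero hq (Finset.prod_ne_zero_iff.2 fun p _ => P1_ne_zero p)
    have hnm : nm (q * ∏ p ∈ d, (p : GaussianInt)) = nm q * ∏ p ∈ d, nm (p : GaussianInt) := by
      rw [nm_mul, nm_prod]
    have hfil : ((ball r).filter (fun n => q ∣ n - a)).filter
        (fun n => ∀ p, ∀ h : p ∈ d, (p : GaussianInt) ∣ n + σ p h) =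
        (ball r).filter (fun n => q * ∏ p ∈ d, (p : GaussianInt) ∣ n - b) := by
      rw [Finset.filter_filter]
      apply Finset.filter_congr
      intro n _
      rw [← hb n]
      constructor
      · rintro ⟨h1, h2⟩
        refine ⟨h1, fun p hp => ?_⟩
        rw [dif_pos hp]
        exact h2 p hp
      · rintro ⟨h1, h2⟩
        refine ⟨h1, fun p hp => ?_⟩
        have := h2 p hp
        rwa [dif_pos hp] at this
    rw [hfil, ← hnm]
    exact hres _ b r hD0 (by rw [hnm]; exact hr) hr1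
  calc |∑ σ ∈ d.pi (fun _ => S), (_ - _)| ≤ _ := Finset.abs_sum_le_sum_abs _ _
    _ ≤ ∑ _σ ∈ d.pi (fun _ => S), K * r := Finset.sum_le_sum hterm
    _ = K * r * (S.card : ℝ) ^ d.card := by
      rw [Finset.sum_const, Finset.card_pi, Finset.prod_const, nsmul_eq_mul]
      push_cast
      ring

open scoped Classical in
theorem good_sum : ∃ K : ℝ, 0 < K ∧ ∀ (S : Finset GaussianInt) (q a : GaussianInt) (A : Finset P1)
    (D : ℝ) (G : GaussianInt → ℝ) (m M : ℝ) (r : ℝ), q ≠ 0 → (∀ p ∈ A, Ok S q p) →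
    Good S A D G m M → 0 ≤ D → nm q * D ≤ r ^ 2 → 1 ≤ r →
    |∑ n ∈ (ball r).filter (fun n => q ∣ n - a), G n - Real.pi * r ^ 2 / nm q * m| ≤
      K * r * (D * M) := by
  obtain ⟨K, hK, hc⟩ := count_d
  refine ⟨K, hK, fun S q a A D G m M r hq hA hG hD hr hr1 => ?_⟩
  obtain ⟨I, _, c, d, hdA, hdD, hGn, hm, hM⟩ := hG
  have e : ∑ n ∈ (ball r).filter (fun n => q ∣ n - a), G n - Real.pi * r ^ 2 / nm q * m =
      ∑ i, c i * (∑ n ∈ (ball r).filter (fun n => q ∣ n - a), ∏ p ∈ d i, xh S n p -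
        Real.pi * r ^ 2 / nm q * ∏ p ∈ d i, kn S p) := by
    rw [Finset.sum_congr rfl fun n _ => hGn n, Finset.sum_comm, hm, Finset.mul_sum,
      ← Finset.sum_sub_distrib]
    refine Finset.sum_congr rfl fun i _ => ?_
    rw [← Finset.mul_sum]
    ring
  rw [e]
  have hterm : ∀ i ∈ (Finset.univ : Finset I),
      |c i * (∑ n ∈ (ball r).filter (fun n => q ∣ n - a), ∏ p ∈ d i, xh S n p -
        Real.pi * r ^ 2 / nm q * ∏ p ∈ d i, kn S p)| ≤
      K * r * D * (|c i| * ∏ p ∈ d i, kn S p) := by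
    intro i _
    rw [abs_mul]
    have h1 := hc S q a (d i) r hq (fun p hp => hA p (hdA i hp))
      (le_trans (mul_le_mul_of_nonneg_left (hdD i) (nm_nonneg q)) hr) hr1
    have h2 : (S.card : ℝ) ^ (d i).card ≤ D * ∏ p ∈ d i, kn S p := by
      have hPpos : 0 < ∏ p ∈ d i, nm (p : GaussianInt) := Finset.prod_pos fun p _ => nm_P1_pos p
      have : ∏ p ∈ d i, kn S p = (S.card : ℝ) ^ (d i).card / ∏ p ∈ d i, nm (p : GaussianInt) := by
        unfold kn
        rw [Finset.prod_div_distrib, Finset.prod_const]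
      rw [this, mul_div_assoc', le_div_iff₀ hPpos, mul_comm D]
      exact mul_le_mul_of_nonneg_left (hdD i) (by positivity)
    calc |c i| * _ ≤ |c i| * (K * r * (S.card : ℝ) ^ (d i).card) :=
          mul_le_mul_of_nonneg_left h1 (abs_nonneg _)
      _ ≤ |c i| * (K * r * (D * ∏ p ∈ d i, kn S p)) := by
          apply mul_le_mul_of_nonneg_left _ (abs_nonneg _)
          apply mul_le_mul_of_nonneg_left h2 (by positivity)
      _ = K * r * D * (|c i| * ∏ p ∈ d i, kn S p) := by ring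
  calc |∑ i, c i * _| ≤ _ := Finset.abs_sum_le_sum_abs _ _
    _ ≤ ∑ i, K * r * D * (|c i| * ∏ p ∈ d i, kn S p) := Finset.sum_le_sum hterm
    _ = K * r * D * ∑ i, |c i| * ∏ p ∈ d i, kn S p := by rw [Finset.mul_sum]
    _ ≤ K * r * D * M := mul_le_mul_of_nonneg_left hM (by positivity)
    _ = K * r * (D * M) := by ring

end Pool.Agent.RSG
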