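import Pool.Agent.RSZ.GoodL
import Pool.Agent.RSZ.Cd

set_option autoImplicit false

/-!
# Module Bucket: the sifted sum over buckets

`F_i n = ∏_{p ∈ A i} (1 - 2 xh S n p)`, `P_i = Pb (A i) (xh S n) (b i)`, `R_i = 2^(b i + 1) es (A i) (xh S n) (b i + 1)`.
`bonf` (for `xh ∈ {0,1}`) and `prod_close`: `|∏ F_i - ∏ P_i| ≤ ∏ (1 + R_i) - 1` pointwise; sum over `n ∈ ball r`, `q ∣ n - a` with
`good_sum` for `∏ P_i` and for `∏ (1 + R_i)` (`good_prod`, `good_P`, `good_R`), and for the constant `1`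
(`good_one`); finally `|∏ μ(P_i) - ∏ ∏ (1 - 2 kn)| ≤ ∏ (1 + ρ_i) - 1` by `bonf` (for `kn ∈ [0,1]`, `Ok`) and `prod_close`.
Here `D = ∏ v_i^(b_i+1) ≥ 1` and the mass is `∏ exp (2 ∑ kn) = exp (2 ∑∑ kn) ≥ 1`.
-/

open Filter Topology MeasureTheory ProbabilityTheory

namespace Pool.Agent.RSG

open Pool.Agent.GaussPret Pool.Agent.MRG

private theorem bk_kn (S : Finset GaussianInt) {q : GaussianInt} {p : P1} (h : Ok S q p) :
    0 ≤ kn S p ∧ kn S p ≤ 1 / 2 := by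
  have h1 : 0 < nm (p : GaussianInt) := by
    have := two_le_nm_of_prime p.2.1
    linarith
  have h2 := h.2.2
  unfold kn
  refine ⟨by positivity, ?_⟩
  rw [div_le_iff₀ h1]
  linarith

private theorem bk_xh (S : Finset GaussianInt) (n : GaussianInt) (p : P1) :
    xh S n p = 0 ∨ xh S n p = 1 := by
  unfold xh
  split_ifs
  · exact Or.inr rfl
  · exact Or.inl rfl

private theorem bk_abs {ι : Type*} (A : Finset ι) {x : ι → ℝ} (hx : ∀ p ∈ A, 0 ≤ x p ∧ x p ≤ 1) :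
    |∏ p ∈ A, (1 - 2 * x p)| ≤ 1 := by
  rw [Finset.abs_prod]
  refine Finset.prod_le_one (fun p _ => abs_nonneg _) fun p hp => ?_
  rw [abs_le]
  obtain ⟨h1, h2⟩ := hx p hp
  constructor <;> linarith

open scoped Classical in
theorem bucket : ∃ K : ℝ, 0 < K ∧ ∀ (S : Finset GaussianInt) (q a : GaussianInt) (N : ℕ)
    (A : ℕ → Finset P1) (v : ℕ → ℝ) (b : ℕ → ℕ) (r : ℝ), q ≠ 0 → 1 ≤ r →
    (∀ i < N, ∀ j < N, i ≠ j → Disjoint (A i) (A j)) → (∀ i < N, 1 ≤ v i) →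
    (∀ i < N, ∀ p ∈ A i, nm (p : GaussianInt) ≤ v i) → (∀ i < N, ∀ p ∈ A i, Ok S q p) →
    nm q * ∏ i ∈ Finset.range N, v i ^ (b i + 1) ≤ r ^ 2 →
    |∑ n ∈ (ball r).filter (fun n => q ∣ n - a),
        ∏ i ∈ Finset.range N, ∏ p ∈ A i, (1 - 2 * xh S n p)| ≤
      Real.pi * r ^ 2 / nm q * (|∏ i ∈ Finset.range N, ∏ p ∈ A i, (1 - 2 * kn S p)| +
        2 * (∏ i ∈ Finset.range N, (1 + 2 ^ (b i + 1) * es (A i) (kn S) (b i + 1)) - 1)) +
      K * r * ((∏ i ∈ Finset.range N, v i ^ (b i + 1)) *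
        Real.exp (2 * ∑ i ∈ Finset.range N, ∑ p ∈ A i, kn S p)) := by
  obtain ⟨K, hK, hgs⟩ := good_sum
  refine ⟨3 * K, by positivity, fun S q a N A v b r hq hr hdis hv hAv hOk hD => ?_⟩
  set B := (ball r).filter (fun n => q ∣ n - a) with hB
  set D : ℝ := ∏ i ∈ Finset.range N, v i ^ (b i + 1) with hDdef
  set M : ℝ := Real.exp (2 * ∑ i ∈ Finset.range N, ∑ p ∈ A i, kn S p) with hMdef
  set Q : ℝ := ∏ i ∈ Finset.range N, (1 + 2 ^ (b i + 1) * es (A i) (kn S) (b i + 1)) with hQdef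
  set F : ℝ := ∏ i ∈ Finset.range N, ∏ p ∈ A i, (1 - 2 * kn S p) with hFdef
  set m : ℝ := ∏ i ∈ Finset.range N, Pb (A i) (kn S) (b i) with hmdef
  have hrange : ∀ i ∈ Finset.range N, i < N := fun i hi => Finset.mem_range.1 hi
  have hDge : ∀ i < N, 1 ≤ v i ^ (b i + 1) := fun i hi => one_le_pow₀ (hv i hi)
  have hD1 : 1 ≤ D := by
    rw [hDdef]
    exact Finset.prod_induction (fun i => v i ^ (b i + 1)) (fun x => (1 : ℝ) ≤ x)
      (fun x y hx hy => one_le_mul_of_one_le_of_one_le hx hy) le_rfl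
      (fun i hi => hDge i (hrange i hi))
  have hkn : ∀ i < N, ∀ p ∈ A i, 0 ≤ kn S p ∧ kn S p ≤ 1 := by
    intro i hi p hp
    have := bk_kn S (hOk i hi p hp)
    exact ⟨this.1, by linarith [this.2]⟩
  have hM1 : 1 ≤ M := by
    rw [hMdef]
    apply Real.one_le_exp
    have : 0 ≤ ∑ i ∈ Finset.range N, ∑ p ∈ A i, kn S p :=
      Finset.sum_nonneg fun i hi => Finset.sum_nonneg fun p hp => (hkn i (hrange i hi) p hp).1
    linarith
  have hMprod : ∏ i ∈ Finset.range N, Real.exp (2 * ∑ p ∈ A i, kn S p) = M := by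
    rw [hMdef, ← Real.exp_sum, Finset.mul_sum]
  have hOkU : ∀ p ∈ (Finset.range N).biUnion A, Ok S q p := by
    intro p hp
    obtain ⟨i, hi, hpi⟩ := Finset.mem_biUnion.1 hp
    exact hOk i (hrange i hi) p hpi
  -- the three sums
  have s1 : |∑ n ∈ B, ∏ i ∈ Finset.range N, Pb (A i) (xh S n) (b i) -
      Real.pi * r ^ 2 / nm q * m| ≤ K * r * (D * M) := by
    have h1 := good_prod (S := S) N A (fun i => v i ^ (b i + 1)) (fun i => Pb (A i) (kn S) (b i))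
      (fun i => Real.exp (2 * ∑ p ∈ A i, kn S p)) (fun i n => Pb (A i) (xh S n) (b i))
      (fun i hi => good_P S (A i) (hv i hi) (hAv i hi) (b i)) hdis hDge
    rw [hMprod] at h1
    exact hgs S q a _ D _ m M r hq hOkU h1 (by linarith) hD hr
  have s2 : |∑ n ∈ B, ∏ i ∈ Finset.range N, (1 + 2 ^ (b i + 1) * es (A i) (xh S n) (b i + 1)) -
      Real.pi * r ^ 2 / nm q * Q| ≤ K * r * (D * M) := by
    have h1 := good_prod (S := S) N A (fun i => v i ^ (b i + 1))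
      (fun i => 1 + 2 ^ (b i + 1) * es (A i) (kn S) (b i + 1))
      (fun i => Real.exp (2 * ∑ p ∈ A i, kn S p))
      (fun i n => 1 + 2 ^ (b i + 1) * es (A i) (xh S n) (b i + 1))
      (fun i hi => good_R S (A i) (hv i hi) (hAv i hi) (b i)) hdis hDge
    rw [hMprod] at h1
    exact hgs S q a _ D _ Q M r hq hOkU h1 (by linarith) hD hr
  have s3 : |∑ n ∈ B, (1 : ℝ) - Real.pi * r ^ 2 / nm q * 1| ≤ K * r * (D * M) := by
    have h1 := hgs S q a ∅ 1 (fun _ => 1) 1 1 r hq (fun p hp => by simp at hp) (good_one S)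
      zero_le_one (by
        rw [mul_one]
        refine le_trans ?_ hD
        exact le_mul_of_one_le_right (nm_nonneg q) hD1) hr
    refine h1.trans ?_
    apply mul_le_mul_of_nonneg_left _ (by positivity)
    have : 1 ≤ D * M := one_le_mul_of_one_le_of_one_le hD1 hM1
    linarith
  -- pointwise
  have hpt : ∀ n ∈ B, |∏ i ∈ Finset.range N, ∏ p ∈ A i, (1 - 2 * xh S n p) -
      ∏ i ∈ Finset.range N, Pb (A i) (xh S n) (b i)| ≤
      ∏ i ∈ Finset.range N, (1 + 2 ^ (b i + 1) * es (A i) (xh S n) (b i + 1)) - 1 := by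
    intro n _
    have hx : ∀ p, 0 ≤ xh S n p ∧ xh S n p ≤ 1 := by
      intro p
      rcases bk_xh S n p with h | h
      · rw [h]; constructor <;> norm_num
      · rw [h]; constructor <;> norm_num
    exact prod_close (Finset.range N) (fun i _ => bk_abs (A i) fun p _ => hx p)
      (fun i _ => bonf (A i) (fun p _ => hx p) (b i))
  have hmF : |F - m| ≤ Q - 1 :=
    prod_close (Finset.range N) (fun i hi => bk_abs (A i) (hkn i (hrange i hi)))
      (fun i hi => bonf (A i) (hkn i (hrange i hi)) (b i))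
  -- assembly
  have hsum : |∑ n ∈ B, ∏ i ∈ Finset.range N, ∏ p ∈ A i, (1 - 2 * xh S n p)| ≤
      |∑ n ∈ B, ∏ i ∈ Finset.range N, Pb (A i) (xh S n) (b i)| +
      (∑ n ∈ B, ∏ i ∈ Finset.range N, (1 + 2 ^ (b i + 1) * es (A i) (xh S n) (b i + 1)) -
        ∑ n ∈ B, (1 : ℝ)) := by
    have e : ∑ n ∈ B, ∏ i ∈ Finset.range N, ∏ p ∈ A i, (1 - 2 * xh S n p) =
        ∑ n ∈ B, ∏ i ∈ Finset.range N, Pb (A i) (xh S n) (b i) +
        ∑ n ∈ B, (∏ i ∈ Finset.range N, ∏ p ∈ A i, (1 - 2 * xh S n p) -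
          ∏ i ∈ Finset.range N, Pb (A i) (xh S n) (b i)) := by
      rw [Finset.sum_sub_distrib]
      ring
    rw [e, ← Finset.sum_sub_distrib]
    refine (abs_add_le _ _).trans (add_le_add le_rfl ?_)
    exact (Finset.abs_sum_le_sum_abs _ _).trans (Finset.sum_le_sum hpt)
  have hc : 0 ≤ Real.pi * r ^ 2 / nm q :=
    div_nonneg (mul_nonneg Real.pi_pos.le (by positivity)) (nm_nonneg q)
  have a1 := abs_le.1 s1
  have a2 := abs_le.1 s2
  have a3 := abs_le.1 s3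
  have hP : |∑ n ∈ B, ∏ i ∈ Finset.range N, Pb (A i) (xh S n) (b i)| ≤
      Real.pi * r ^ 2 / nm q * |m| + K * r * (D * M) := by
    have h1 : |Real.pi * r ^ 2 / nm q * m| = Real.pi * r ^ 2 / nm q * |m| := by
      rw [abs_mul, abs_of_nonneg hc]
    rw [← h1]
    have h2 := abs_sub_abs_le_abs_sub
      (∑ n ∈ B, ∏ i ∈ Finset.range N, Pb (A i) (xh S n) (b i)) (Real.pi * r ^ 2 / nm q * m)
    linarith
  have hm : |m| ≤ |F| + (Q - 1) := by
    have h1 := abs_sub_abs_le_abs_sub m F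
    rw [abs_sub_comm] at h1
    linarith
  have hm2 := mul_le_mul_of_nonneg_left hm hc
  have e1 : Real.pi * r ^ 2 / nm q * (|F| + 2 * (Q - 1)) =
      Real.pi * r ^ 2 / nm q * (|F| + (Q - 1)) + (Real.pi * r ^ 2 / nm q * Q -
        Real.pi * r ^ 2 / nm q * 1) := by ring
  rw [e1]
  have e2 : 3 * K * r * (D * M) = K * r * (D * M) + K * r * (D * M) + K * r * (D * M) := by ring
  rw [e2]
  linarith [a2.2, a3.1]

end Pool.Agent.RSG
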