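import Pool.Agent.RSG.Cnt
import Pool.Agent.MRG.TK

set_option autoImplicit false

/-!
# Functions with the signs of a character outside a set of primes of density zero: definitions

`E` is a set of first-quadrant Gaussian primes.
* `xE E p = -1` if `p ∈ E`, else `1`; `sE E n` the completely multiplicative function with these values (`1` at units and at `0`);
* `PL t` the primes with `nm p ≤ t`; `EP E a b` the primes of `E` with `a < nm p ≤ b`, `TE E a b` the sum of their `1 / nm p`;
* `ht S n p`: `p` divides `n + h` for some `h ∈ S`; `xh S n p` its indicator;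
* `es E x j` elementary symmetric sums, `Pb E x b = ∑_{j ≤ b} (-2)^j es E x j`.
* `Good S A D G m M`: `G` is a divisor sum over the primes in `A`, of level `D`, mean `m`, total mass at most `M`.
-/

open Filter Topology MeasureTheory ProbabilityTheory

namespace Pool.Agent.RSG

open Pool.Agent.GaussPret Pool.Agent.MRG

open scoped Classical in
noncomputable def xE (E : Set P1) (p : P1) : ℝ := if p ∈ E then -1 else 1

noncomputable def sE (E : Set P1) (n : GaussianInt) : ℝ := ∏ p ∈ OD n, xE E p

theorem finite_PL (t : ℝ) : {p : P1 | nm (p : GaussianInt) ≤ t}.Finite := by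
  have h1 := finite_ball (Real.sqrt t)
  refine Set.Finite.of_finite_image (f := fun p : P1 => (p : GaussianInt))
    (h1.subset ?_) (Subtype.val_injective.injOn)
  rintro _ ⟨p, hp, rfl⟩
  show ‖GaussianInt.toComplex (p : GaussianInt)‖ ≤ _
  apply Real.le_sqrt_of_sq_le
  rw [← nm_eq]
  exact hp

noncomputable def PL (t : ℝ) : Finset P1 := (finite_PL t).toFinset

theorem mem_PL {t : ℝ} {p : P1} : p ∈ PL t ↔ nm (p : GaussianInt) ≤ t := by
  simp [PL]

open scoped Classical in
noncomputable def EP (E : Set P1) (a b : ℝ) : Finset P1 :=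
  (PL b).filter (fun p => p ∈ E ∧ a < nm (p : GaussianInt))

theorem mem_EP {E : Set P1} {a b : ℝ} {p : P1} :
    p ∈ EP E a b ↔ p ∈ E ∧ a < nm (p : GaussianInt) ∧ nm (p : GaussianInt) ≤ b := by
  simp only [EP, Finset.mem_filter, mem_PL]
  tauto

noncomputable def TE (E : Set P1) (a b : ℝ) : ℝ := ∑ p ∈ EP E a b, 1 / nm (p : GaussianInt)

def ht (S : Finset GaussianInt) (n : GaussianInt) (p : P1) : Prop :=
  ∃ h ∈ S, (p : GaussianInt) ∣ n + h

open scoped Classical in
noncomputable def xh (S : Finset GaussianInt) (n : GaussianInt) (p : P1) : ℝ :=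
  if ht S n p then 1 else 0

noncomputable def es {ι : Type*} (E : Finset ι) (x : ι → ℝ) (j : ℕ) : ℝ :=
  ∑ d ∈ E.powersetCard j, ∏ p ∈ d, x p

noncomputable def Pb {ι : Type*} (E : Finset ι) (x : ι → ℝ) (b : ℕ) : ℝ :=
  ∑ j ∈ Finset.range (b + 1), (-2) ^ j * es E x j

/-- the local density `#S / nm p`. -/
noncomputable def kn (S : Finset GaussianInt) (p : P1) : ℝ := (S.card : ℝ) / nm (p : GaussianInt)

/-- `G` is a divisor sum over `A` of level `D` with mean `m` and mass at most `M`. -/
def Good (S : Finset GaussianInt) (A : Finset P1) (D : ℝ) (G : GaussianInt → ℝ) (m M : ℝ) : Prop :=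
  ∃ (I : Type) (_ : Fintype I) (a : I → ℝ) (d : I → Finset P1),
    (∀ i, d i ⊆ A) ∧ (∀ i, ∏ p ∈ d i, nm (p : GaussianInt) ≤ D) ∧
    (∀ n, G n = ∑ i, a i * ∏ p ∈ d i, xh S n p) ∧
    m = ∑ i, a i * ∏ p ∈ d i, kn S p ∧ ∑ i, |a i| * ∏ p ∈ d i, kn S p ≤ M

/-- the primes in `A` do not divide `q` and not the differences of elements of `S`, and have norm at least `2 #S`. -/
def Ok (S : Finset GaussianInt) (q : GaussianInt) (p : P1) : Prop :=
  ¬ (p : GaussianInt) ∣ q ∧ (∀ h ∈ S, ∀ h' ∈ S, h ≠ h' → ¬ (p : GaussianInt) ∣ h - h') ∧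
    2 * (S.card : ℝ) ≤ nm (p : GaussianInt)

end Pool.Agent.RSG
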