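import Pool.Agent.RSZ.NoCorrE
import Pool.Agent.RSG.Main2

set_option autoImplicit false

/-!
# Module Final: signs equal to those of a real ray class character outside a set of primes of density zero
-/

open Filter Topology MeasureTheory ProbabilityTheory

namespace Pool.Agent.RSG

open Pool.Agent.GaussPret Pool.Agent.MRG

theorem chi_sq {χ : GaussianInt → ℝ} {m : ℕ} (hm : 0 < m) (hχ : IsRayChar m χ) (p : P1)
    (hp : ¬ (p : GaussianInt) ∣ (m : GaussianInt)) : |χ (p : GaussianInt)| = 1 := by
  have h1 : IsCoprime (p : GaussianInt) (m : GaussianInt) := by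
    rw [(P1_prime p).coprime_iff_not_dvd]
    exact hp
  have h2 := hχ.sq_eq_one hm h1
  rw [← abs_mul_abs_self] at h2
  nlinarith [abs_nonneg (χ (p : GaussianInt))]

theorem chi_dvd {χ : GaussianInt → ℝ} {m : ℕ} (hχ : IsRayChar m χ) (p : P1)
    (hp : (p : GaussianInt) ∣ (m : GaussianInt)) : χ (p : GaussianInt) = 0 := by
  rw [hχ.zero_iff, (P1_prime p).coprime_iff_not_dvd]
  exact fun h => h hp

theorem tsum_win (δ : P1 → ℝ) (a b : ℝ) :
    (∑' p : P1, if a < nm (p : GaussianInt) ∧ nm (p : GaussianInt) ≤ b then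
      δ p / nm (p : GaussianInt) else 0) = ∑ p ∈ EP Set.univ a b, δ p / nm (p : GaussianInt) := by
  classical
  rw [tsum_eq_sum (s := EP Set.univ a b)]
  · refine Finset.sum_congr rfl fun p hp => ?_
    rw [mem_EP] at hp
    rw [if_pos hp.2]
  · intro p hp
    rw [if_neg]
    intro h
    exact hp (mem_EP.2 ⟨Set.mem_univ _, h⟩)

theorem tail_zero {w : P1 → ℝ} (hw : Summable w) :
    Tendsto (fun t : ℝ => ∑ p ∈ EP Set.univ (Real.sqrt t) t, w p) atTop (𝓝 0) := by
  classical
  rw [Metric.tendsto_atTop]
  intro ε hε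
  have h1 := hw.hasSum
  obtain ⟨T, hT⟩ := (summable_iff_vanishing_norm.1 hw) ε hε
  obtain ⟨B, hB⟩ := (T.finite_toSet.image (fun p : P1 => nm (p : GaussianInt))).bddAbove
  refine ⟨max 1 (B ^ 2 + 1), fun t ht => ?_⟩
  have ht1 : 1 ≤ t := (le_max_left _ _).trans ht
  have ht2 : B ^ 2 + 1 ≤ t := (le_max_right _ _).trans ht
  have hd : Disjoint (EP Set.univ (Real.sqrt t) t) T := by
    rw [Finset.disjoint_left]
    intro p hp hpT
    rw [mem_EP] at hp
    have h2 : nm (p : GaussianInt) ≤ B := hB ⟨p, hpT, rfl⟩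
    have h3 : B ≤ Real.sqrt t := by
      apply Real.le_sqrt_of_sq_le
      linarith
    linarith [hp.2.1]
  have h4 := hT _ hd
  rw [Real.dist_eq, sub_zero]
  exact h4

theorem dz_main {f χ : GaussianInt → ℝ} {m : ℕ} (hf : IsBCM f) (hm : 0 < m) (hχ : IsRayChar m χ)
    (h : Tendsto (fun t : ℝ => ∑' p : P1,
      if Real.sqrt t < nm (p : GaussianInt) ∧ nm (p : GaussianInt) ≤ t then
        (|f (p : GaussianInt)| - f (p : GaussianInt) * χ (p : GaussianInt)) / nm (p : GaussianInt)
      else 0) atTop (𝓝 0)) :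
    ShortAvg f sqr ∧ ∀ Φ : ℕ → Finset GaussianInt, IsDilatedFolner Φ → ShortAvg f Φ := by
  classical
  by_cases hPPa : PP (fun n => |f n|) = 0
  · exact ⟨zero_main hf hPPa isDilatedFolner_sqr, fun Φ hΦ => zero_main hf hPPa hΦ⟩
  have hs1 : Summable (fun p : P1 => (1 - |f (p : GaussianInt)|) / nm (p : GaussianInt)) :=
    summable_of_PP (f := fun n => |f n|) hf.abs hPPa
  have hnm : ∀ p : P1, 0 < nm (p : GaussianInt) := fun p => by
    have := two_le_nm_of_prime (P1_prime p)
    linarith
  have hs0 : ∀ p : P1, 0 ≤ (1 - |f (p : GaussianInt)|) / nm (p : GaussianInt) := by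
    intro p
    have h1 : |f (p : GaussianInt)| ≤ 1 := hf.abs_le_one (P1_ne_zero p)
    have := hnm p
    apply div_nonneg <;> linarith
  have hχ1 : ∀ p : P1, |χ (p : GaussianInt)| ≤ 1 := fun p => hχ.abs_le_one hm _
  have hfχ : ∀ p : P1, |f (p : GaussianInt) * χ (p : GaussianInt)| ≤ |f (p : GaussianInt)| := by
    intro p
    rw [abs_mul]
    exact mul_le_of_le_one_right (abs_nonneg _) (hχ1 p)
  have hd0 : ∀ p : P1, 0 ≤ |f (p : GaussianInt)| - f (p : GaussianInt) * χ (p : GaussianInt) := by
    intro p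
    have := (abs_le.1 (hfχ p)).2
    linarith
  obtain ⟨E, hE⟩ : ∃ E : Set P1, E = {p : P1 | f (p : GaussianInt) * χ (p : GaussianInt) < 0} :=
    ⟨_, rfl⟩
  have hmE : ∀ p : P1, p ∈ E ↔ f (p : GaussianInt) * χ (p : GaussianInt) < 0 := by
    intro p
    rw [hE]
    rfl
  -- the window sums of `E` tend to zero
  have h2 : Tendsto (fun t : ℝ => TE E (Real.sqrt t) t) atTop (𝓝 0) := by
    have h3 := h.add (tail_zero hs1)
    rw [add_zero] at h3
    refine squeeze_zero (fun t => ?_) (fun t => ?_) h3
    · exact TE_nonneg E _ _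
    · rw [tsum_win, ← Finset.sum_add_distrib]
      unfold TE
      have hsub : EP E (Real.sqrt t) t ⊆ EP Set.univ (Real.sqrt t) t := by
        intro p hp
        rw [mem_EP] at hp ⊢
        exact ⟨Set.mem_univ _, hp.2⟩
      refine (Finset.sum_le_sum fun p hp => ?_).trans
        (Finset.sum_le_sum_of_subset_of_nonneg hsub fun p _ _ => ?_)
      · rw [mem_EP, hmE] at hp
        rw [← add_div]
        apply div_le_div_of_nonneg_right _ (hnm p).le
        have := hp.1
        linarith
      · exact add_nonneg (div_nonneg (hd0 p) (hnm p).le) (hs0 p)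
  have hfin : {p : P1 | (p : GaussianInt) ∣ (m : GaussianInt)}.Finite := finite_dvd hm
  -- for `p ∤ m` outside `E` we have `|f| = f χ`
  have hout : ∀ p : P1, ¬ (p : GaussianInt) ∣ (m : GaussianInt) → p ∉ E →
      |f (p : GaussianInt)| = f (p : GaussianInt) * χ (p : GaussianInt) := by
    intro p hp hpE
    rw [hmE, not_lt] at hpE
    rw [← abs_of_nonneg hpE, abs_mul, chi_sq hm hχ p hp, mul_one]
  have hin : ∀ p : P1, ¬ (p : GaussianInt) ∣ (m : GaussianInt) → p ∈ E →
      |f (p : GaussianInt)| = - (f (p : GaussianInt) * χ (p : GaussianInt)) := by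
    intro p hp hpE
    rw [hmE] at hpE
    rw [← abs_of_neg hpE, abs_mul, chi_sq hm hχ p hp, mul_one]
  have hmono : Monotone (fun t : ℝ => TE E 0 t) := fun a b hab => TE_mono E le_rfl hab
  rcases tendsto_atTop_of_monotone hmono with h1 | ⟨l, hl⟩
  · -- `∑_E = ∞`
    have hn := noCorr_E h1 h2
    have hx : ∀ p, xE E p = 1 ∨ xE E p = -1 := by
      intro p
      unfold xE
      by_cases hp : p ∈ E
      · right; rw [if_pos hp]
      · left; rw [if_neg hp]
    have e : sE E = sX (xE E) := by
      funext n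
      rfl
    rw [e] at hn
    have hsum : Summable (fun p : P1 => (|f (p : GaussianInt)| -
        xE E p * χ (p : GaussianInt) * f (p : GaussianInt)) / nm (p : GaussianInt)) := ?_
    · exact sX_main hx hn hf hm hχ hsum
    refine summable_of_hasFiniteSupport (hfin.subset fun p hp => ?_)
    rw [Function.mem_support] at hp
    by_contra hpm
    apply hp
    have hpm' : ¬ (p : GaussianInt) ∣ (m : GaussianInt) := hpm
    rw [div_eq_zero_iff]
    left
    by_cases hpE : p ∈ E
    · rw [hin p hpm' hpE]
      unfold xE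
      rw [if_pos hpE]
      ring
    · rw [hout p hpm' hpE]
      unfold xE
      rw [if_neg hpE]
      ring
  · -- `∑_E < ∞`
    have hsE : Summable (fun p : P1 => if p ∈ E then 1 / nm (p : GaussianInt) else 0) := by
      have hle : ∀ t : ℝ, TE E 0 t ≤ l := fun t => hmono.ge_of_tendsto hl t
      refine summable_of_sum_le (c := l) (fun p => ?_) fun u => ?_
      · split_ifs
        · exact div_nonneg zero_le_one (hnm p).le
        · exact le_rfl
      · obtain ⟨B, hB⟩ := (u.finite_toSet.image (fun p : P1 => nm (p : GaussianInt))).bddAbove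
        refine le_trans ?_ (hle B)
        rw [← Finset.sum_filter]
        unfold TE
        refine Finset.sum_le_sum_of_subset_of_nonneg (fun p hp => ?_) fun p _ _ =>
          div_nonneg zero_le_one (hnm p).le
        rw [Finset.mem_filter] at hp
        rw [mem_EP]
        exact ⟨hp.2, hnm p, hB ⟨p, hp.1, rfl⟩⟩
    have hs2 : Summable (fun p : P1 => (1 - f (p : GaussianInt) * χ (p : GaussianInt)) /
        nm (p : GaussianInt)) := by
      have h3 := hs1.add (hsE.mul_left 2)
      refine Summable.of_norm_bounded_eventually h3 ?_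
      rw [Filter.eventually_cofinite]
      refine hfin.subset fun p hp => ?_
      by_contra hpm
      have hpm' : ¬ (p : GaussianInt) ∣ (m : GaussianInt) := hpm
      apply hp
      have hf1 : |f (p : GaussianInt)| ≤ 1 := hf.abs_le_one (P1_ne_zero p)
      have h4 : 0 ≤ 1 - f (p : GaussianInt) * χ (p : GaussianInt) := by
        have := (abs_le.1 (hfχ p)).2
        linarith
      have h5 := hnm p
      rw [Real.norm_eq_abs, abs_of_nonneg (div_nonneg h4 h5.le)]
      by_cases hpE : p ∈ E
      · have h6 := hin p hpm' hpE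
        rw [if_pos hpE, mul_one_div, ← add_div]
        apply div_le_div_of_nonneg_right _ h5.le
        linarith
      · have h6 := hout p hpm' hpE
        rw [if_neg hpE, mul_zero, add_zero]
        apply div_le_div_of_nonneg_right _ h5.le
        linarith
    have key : ∀ Φ : ℕ → Finset GaussianInt, IsDilatedFolner Φ → ShortAvg f Φ := fun Φ hΦ =>
      pret_main hf hχ hm hs2 hΦ
    exact ⟨key sqr isDilatedFolner_sqr, key⟩

end Pool.Agent.RSG
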