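import Pool.Agent.RSZ.Bonf

set_option autoImplicit false

/-!
# Module GoodL: divisor sums

`good_one`: `I = Unit`, `d = ∅`.  `good_mul`: index set `I₁ × I₂`, `d = d₁ ∪ d₂` (disjoint).
`good_P`: index set `{d // d ∈ (range (b+1)).biUnion (powersetCard · A)}` or the powerset with coefficient `(-2)^#d` if `#d ≤ b`,
else `0` (for the level use only the index set of `d` with `#d ≤ b`, so that `∏ nm p ≤ v^b`; `v ≥ 1`); mass `sum_es_le`.
`good_R`: `1 + 2^(b+1) es A (xh S n) (b+1)`: index set `Option`/sum of the empty set and `powersetCard (b+1) A`;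
mass `1 + 2^(b+1) es ≤ exp (2 ∑ kn)` (terms of the exponential series, `es_le`).
-/

open Filter Topology MeasureTheory ProbabilityTheory
open scoped Nat

namespace Pool.Agent.RSG

open Pool.Agent.GaussPret Pool.Agent.MRG

private theorem kn_nonneg (S : Finset GaussianInt) (p : P1) : 0 ≤ kn S p :=
  div_nonneg (Nat.cast_nonneg _) (nm_nonneg _)

private theorem good_intro {S : Finset GaussianInt} {A : Finset P1} {D : ℝ}
    {G : GaussianInt → ℝ} {m M : ℝ} (I : Type) [h : Fintype I] (a : I → ℝ)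
    (d : I → Finset P1) (h1 : ∀ i, d i ⊆ A) (h2 : ∀ i, ∏ p ∈ d i, nm (p : GaussianInt) ≤ D)
    (h3 : ∀ n, G n = ∑ i, a i * ∏ p ∈ d i, xh S n p) (h4 : m = ∑ i, a i * ∏ p ∈ d i, kn S p)
    (h5 : ∑ i, |a i| * ∏ p ∈ d i, kn S p ≤ M) : Good S A D G m M :=
  ⟨I, h, a, d, h1, h2, h3, h4, h5⟩

theorem good_one (S : Finset GaussianInt) : Good S ∅ 1 (fun _ => 1) 1 1 := by
  refine ⟨Unit, inferInstance, fun _ => 1, fun _ => ∅, ?_, ?_, ?_, ?_, ?_⟩
  · intro i
    exact Finset.Subset.refl _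
  · intro i
    simp
  · intro n
    simp
  · simp
  · simp

open scoped Classical in
theorem good_mul {S : Finset GaussianInt} {A₁ A₂ : Finset P1} {D₁ D₂ m₁ m₂ M₁ M₂ : ℝ}
    {G₁ G₂ : GaussianInt → ℝ} (h₁ : Good S A₁ D₁ G₁ m₁ M₁) (h₂ : Good S A₂ D₂ G₂ m₂ M₂)
    (hd : Disjoint A₁ A₂) (hD₁ : 1 ≤ D₁) (hD₂ : 1 ≤ D₂) :
    Good S (A₁ ∪ A₂) (D₁ * D₂) (fun n => G₁ n * G₂ n) (m₁ * m₂) (M₁ * M₂) := by
  obtain ⟨I₁, _, a₁, d₁, s₁, l₁, g₁, e₁, t₁⟩ := h₁
  obtain ⟨I₂, _, a₂, d₂, s₂, l₂, g₂, e₂, t₂⟩ := h₂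
  have hdis : ∀ i j, Disjoint (d₁ i) (d₂ j) := fun i j =>
    Finset.disjoint_of_subset_left (s₁ i) (Finset.disjoint_of_subset_right (s₂ j) hd)
  have key : ∀ (b₁ : I₁ → ℝ) (b₂ : I₂ → ℝ) (x : P1 → ℝ),
      (∑ i, b₁ i * ∏ p ∈ d₁ i, x p) * (∑ j, b₂ j * ∏ p ∈ d₂ j, x p) =
      ∑ i : I₁ × I₂, b₁ i.1 * b₂ i.2 * ∏ p ∈ d₁ i.1 ∪ d₂ i.2, x p := by
    intro b₁ b₂ x
    rw [Finset.sum_mul_sum, Fintype.sum_prod_type]
    refine Finset.sum_congr rfl fun i _ => Finset.sum_congr rfl fun j _ => ?_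
    rw [Finset.prod_union (hdis i j)]
    ring
  refine ⟨I₁ × I₂, inferInstance, fun i => a₁ i.1 * a₂ i.2, fun i => d₁ i.1 ∪ d₂ i.2,
    ?_, ?_, ?_, ?_, ?_⟩
  · intro i
    exact Finset.union_subset_union (s₁ i.1) (s₂ i.2)
  · intro i
    rw [Finset.prod_union (hdis i.1 i.2)]
    exact mul_le_mul (l₁ i.1) (l₂ i.2) (Finset.prod_nonneg fun p _ => nm_nonneg _)
      (zero_le_one.trans hD₁)
  · intro n
    show G₁ n * G₂ n = _
    rw [g₁ n, g₂ n, key]
  · rw [e₁, e₂, key]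
  · have e : ∑ i : I₁ × I₂, |a₁ i.1 * a₂ i.2| * ∏ p ∈ d₁ i.1 ∪ d₂ i.2, kn S p =
        (∑ i, |a₁ i| * ∏ p ∈ d₁ i, kn S p) * (∑ j, |a₂ j| * ∏ p ∈ d₂ j, kn S p) := by
      rw [key]
      exact Finset.sum_congr rfl fun i _ => by rw [abs_mul]
    rw [e]
    have n₁ : 0 ≤ ∑ i, |a₁ i| * ∏ p ∈ d₁ i, kn S p :=
      Finset.sum_nonneg fun i _ => mul_nonneg (abs_nonneg _)
        (Finset.prod_nonneg fun p _ => kn_nonneg S p)
    have n₂ : 0 ≤ ∑ j, |a₂ j| * ∏ p ∈ d₂ j, kn S p :=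
      Finset.sum_nonneg fun i _ => mul_nonneg (abs_nonneg _)
        (Finset.prod_nonneg fun p _ => kn_nonneg S p)
    exact mul_le_mul t₁ t₂ n₂ (n₁.trans t₁)

private theorem prod_level {A : Finset P1} {v : ℝ} (hv : 1 ≤ v)
    (hA : ∀ p ∈ A, nm (p : GaussianInt) ≤ v) {b : ℕ} {d : Finset P1} (hd : d ⊆ A)
    (hc : d.card ≤ b + 1) : ∏ p ∈ d, nm (p : GaussianInt) ≤ v ^ (b + 1) := by
  calc ∏ p ∈ d, nm (p : GaussianInt) ≤ ∏ _p ∈ d, v :=
        Finset.prod_le_prod (fun p _ => nm_nonneg _) fun p hp => hA p (hd hp)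
    _ = v ^ d.card := Finset.prod_const _
    _ ≤ v ^ (b + 1) := pow_le_pow_right₀ hv hc

theorem good_P (S : Finset GaussianInt) (A : Finset P1) {v : ℝ} (hv : 1 ≤ v)
    (hA : ∀ p ∈ A, nm (p : GaussianInt) ≤ v) (b : ℕ) :
    Good S A (v ^ (b + 1)) (fun n => Pb A (xh S n) b) (Pb A (kn S) b)
      (Real.exp (2 * ∑ p ∈ A, kn S p)) := by
  have key : ∀ (c : ℕ → ℝ) (x : P1 → ℝ), ∑ j ∈ Finset.range (b + 1), c j * es A x j =
      ∑ i : (Σ j : Fin (b + 1), {d // d ∈ A.powersetCard (j : ℕ)}),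
        c (i.1 : ℕ) * ∏ p ∈ (i.2 : Finset P1), x p := by
    intro c x
    rw [Finset.sum_range, Fintype.sum_sigma]
    refine Finset.sum_congr rfl fun j _ => ?_
    rw [es, Finset.mul_sum, ← Finset.sum_coe_sort (A.powersetCard (j : ℕ))]
  refine ⟨Σ j : Fin (b + 1), {d // d ∈ A.powersetCard (j : ℕ)}, inferInstance,
    fun i => (-2) ^ (i.1 : ℕ), fun i => (i.2 : Finset P1), ?_, ?_, ?_, ?_, ?_⟩
  · intro i
    exact (Finset.mem_powersetCard.1 i.2.2).1
  · intro i
    have h := Finset.mem_powersetCard.1 i.2.2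
    exact prod_level hv hA h.1 (by rw [h.2]; exact i.1.2.le)
  · intro n
    show Pb A (xh S n) b = _
    rw [Pb, key]
  · rw [Pb, key]
  · have h := key (fun j => 2 ^ j) (kn S)
    have e : ∑ i : (Σ j : Fin (b + 1), {d // d ∈ A.powersetCard (j : ℕ)}),
        |(-2 : ℝ) ^ (i.1 : ℕ)| * ∏ p ∈ (i.2 : Finset P1), kn S p =
        ∑ j ∈ Finset.range (b + 1), 2 ^ j * es A (kn S) j := by
      rw [h]
      refine Finset.sum_congr rfl fun i _ => ?_
      rw [abs_pow, abs_neg, abs_of_pos (by norm_num : (0 : ℝ) < 2)]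
    rw [e]
    exact sum_es_le A (fun p _ => kn_nonneg S p) b

theorem good_R (S : Finset GaussianInt) (A : Finset P1) {v : ℝ} (hv : 1 ≤ v)
    (hA : ∀ p ∈ A, nm (p : GaussianInt) ≤ v) (b : ℕ) :
    Good S A (v ^ (b + 1)) (fun n => 1 + 2 ^ (b + 1) * es A (xh S n) (b + 1))
      (1 + 2 ^ (b + 1) * es A (kn S) (b + 1)) (Real.exp (2 * ∑ p ∈ A, kn S p)) := by
  have key : ∀ (x : P1 → ℝ), 1 + 2 ^ (b + 1) * es A x (b + 1) =
      ∑ i : Option {d // d ∈ A.powersetCard (b + 1)},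
        (Option.elim i 1 fun _ => (2 : ℝ) ^ (b + 1)) *
          ∏ p ∈ Option.elim i ∅ (fun d => (d : Finset P1)), x p := by
    intro x
    rw [Fintype.sum_option]
    simp only [Option.elim_none, Finset.prod_empty, mul_one, Option.elim_some]
    rw [es, Finset.mul_sum, ← Finset.sum_coe_sort (A.powersetCard (b + 1))]
  refine good_intro (Option {d // d ∈ A.powersetCard (b + 1)})
    (fun i => Option.elim i 1 fun _ => (2 : ℝ) ^ (b + 1))
    (fun i => Option.elim i ∅ (fun d => (d : Finset P1))) ?_ ?_ ?_ ?_ ?_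
  · rintro (_ | i)
    · exact Finset.empty_subset _
    · exact (Finset.mem_powersetCard.1 i.2).1
  · rintro (_ | i)
    · simp only [Option.elim_none, Finset.prod_empty]
      exact one_le_pow₀ hv
    · have h := Finset.mem_powersetCard.1 i.2
      exact prod_level hv hA h.1 h.2.le
  · intro n
    show 1 + 2 ^ (b + 1) * es A (xh S n) (b + 1) = _
    rw [key]
  · rw [key]
  · have e : ∑ i : Option {d // d ∈ A.powersetCard (b + 1)},
        |(Option.elim i 1 fun _ => (2 : ℝ) ^ (b + 1))| *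
          ∏ p ∈ Option.elim i ∅ (fun d => (d : Finset P1)), kn S p =
        1 + 2 ^ (b + 1) * es A (kn S) (b + 1) := by
      rw [key]
      refine Finset.sum_congr rfl fun i _ => ?_
      rcases i with _ | i
      · simp
      · simp
    rw [e]
    refine le_trans ?_ (sum_es_le A (fun p _ => kn_nonneg S p) (b + 1))
    rw [Finset.sum_range_succ]
    have h0 : (2 : ℝ) ^ 0 * es A (kn S) 0 ≤
        ∑ j ∈ Finset.range (b + 1), 2 ^ j * es A (kn S) j :=
      Finset.single_le_sum (f := fun j => (2 : ℝ) ^ j * es A (kn S) j)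
        (fun j _ => mul_nonneg (by positivity) (es_nonneg A (fun p _ => kn_nonneg S p) j))
        (Finset.mem_range.2 (Nat.succ_pos b))
    rw [es_zero, pow_zero, one_mul] at h0
    linarith

open scoped Classical in
/-- products over buckets. -/
theorem good_prod {S : Finset GaussianInt} (N : ℕ) (A : ℕ → Finset P1) (D m M : ℕ → ℝ)
    (G : ℕ → GaussianInt → ℝ) (h : ∀ i < N, Good S (A i) (D i) (G i) (m i) (M i))
    (hd : ∀ i < N, ∀ j < N, i ≠ j → Disjoint (A i) (A j)) (hD : ∀ i < N, 1 ≤ D i) :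
    Good S ((Finset.range N).biUnion A) (∏ i ∈ Finset.range N, D i)
      (fun n => ∏ i ∈ Finset.range N, G i n) (∏ i ∈ Finset.range N, m i)
      (∏ i ∈ Finset.range N, M i) := by
  induction N with
  | zero =>
    simpa using good_one S
  | succ N ih =>
    have ih' := ih (fun i hi => h i (by omega)) (fun i hi j hj => hd i (by omega) j (by omega))
      (fun i hi => hD i (by omega))
    have h1 : (1 : ℝ) ≤ ∏ i ∈ Finset.range N, D i :=
      Finset.prod_induction D (fun x => (1 : ℝ) ≤ x)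
        (fun a b ha hb => one_le_mul_of_one_le_of_one_le ha hb) le_rfl
        (fun i hi => hD i (by have := Finset.mem_range.1 hi; omega))
    have hdis : Disjoint ((Finset.range N).biUnion A) (A N) := by
      rw [Finset.disjoint_biUnion_left]
      intro i hi
      have := Finset.mem_range.1 hi
      exact hd i (by omega) N (by omega) (by omega)
    have h2 := good_mul ih' (h N (by omega)) hdis h1 (hD N (by omega))
    have e1 : (Finset.range (N + 1)).biUnion A = (Finset.range N).biUnion A ∪ A N := by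
      rw [Finset.range_add_one, Finset.biUnion_insert, Finset.union_comm]
    rw [e1]
    simp only [Finset.prod_range_succ]
    exact h2

end Pool.Agent.RSG
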