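import Pool.Agent.RSZ.TEL

set_option autoImplicit false

/-!
# Module Large: few `n` have a large prime factor in `E`

The number is at most `∑_{h ∈ S} ∑_{p ∈ E, r^(1/32) < nm p ≤ (r + |h|)^2} 9 (r + |h|)^2/nm p ≤ #S * 36 r^2 * TE E (r^(1/32)) (r^4)`
for large `r` (`p ∣ n + h ≠ 0` gives `nm p ≤ nm (n + h) ≤ (r+|h|)^2 ≤ r^4`, `card_ball_dvd_le`), and `TE_pow`.
-/

open Filter Topology MeasureTheory ProbabilityTheory

namespace Pool.Agent.RSG

open Pool.Agent.GaussPret Pool.Agent.MRG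

open scoped Classical in
private theorem large_shift (h d : GaussianInt) (hd : d ≠ 0) {r K : ℝ}
    (hK : ‖GaussianInt.toComplex h‖ ≤ K) :
    (((ball r).filter (fun n => n + h ≠ 0 ∧ d ∣ n + h)).card : ℝ) ≤ 9 * (r + K) ^ 2 / nm d := by
  refine le_trans ?_ (card_ball_dvd_le (r + K) d hd)
  have h1 : ((ball r).filter (fun n => n + h ≠ 0 ∧ d ∣ n + h)).card ≤
      ((ball (r + K)).filter (fun n => d ∣ n)).card := by
    apply Finset.card_le_card_of_injOn (fun n => n + h)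
    · intro n hn
      obtain ⟨h2, h3, h4⟩ := Finset.mem_filter.1 hn
      refine Finset.mem_filter.2 ⟨mem_ball.2 ⟨h3, ?_⟩, h4⟩
      have h5 := (mem_ball.1 h2).2
      show ‖GaussianInt.toComplex (n + h)‖ ≤ r + K
      rw [map_add]
      exact (norm_add_le _ _).trans (add_le_add h5 hK)
    · intro a _ b _ hab
      exact add_right_cancel hab
  exact_mod_cast h1

open scoped Classical in
theorem large_few {E : Set P1}
    (h2 : Tendsto (fun t : ℝ => TE E (Real.sqrt t) t) atTop (𝓝 0)) (S : Finset GaussianInt)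
    {ε : ℝ} (hε : 0 < ε) :
    ∀ᶠ r : ℝ in atTop, (((ball r).filter (fun n => ∃ h ∈ S, ∃ p : P1, p ∈ E ∧
      r ^ (1 / 32 : ℝ) < nm (p : GaussianInt) ∧ n + h ≠ 0 ∧ (p : GaussianInt) ∣ n + h)).card : ℝ) ≤
      ε * r ^ 2 := by
  set K : ℝ := ∑ h ∈ S, ‖GaussianInt.toComplex h‖ with hK
  have hK0 : 0 ≤ K := Finset.sum_nonneg fun h _ => norm_nonneg _
  have hKh : ∀ h ∈ S, ‖GaussianInt.toComplex h‖ ≤ K := fun h hh =>
    Finset.single_le_sum (f := fun h => ‖GaussianInt.toComplex h‖) (fun _ _ => norm_nonneg _) hh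
  have hε' : 0 < ε / (36 * ((S.card : ℝ) + 1)) := by positivity
  have hT := TE_pow h2 (α := 1 / 32) (β := 4) (by norm_num) (by norm_num)
  filter_upwards [hT.eventually (gt_mem_nhds hε'), eventually_ge_atTop (max 2 K)] with r hr hr2
  have hr3 : 2 ≤ r := (le_max_left _ _).trans hr2
  have hr4 : K ≤ r := (le_max_right _ _).trans hr2
  have hr0 : 0 < r := by linarith
  have hrK : (r + K) ^ 2 ≤ 4 * r ^ 2 := by nlinarith
  have hr5 : (r + K) ^ 2 ≤ r ^ (4 : ℝ) := by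
    have e1 : r ^ (4 : ℝ) = r ^ 4 := by
      rw [← Real.rpow_natCast]
      norm_num
    rw [e1]
    have e2 : r + K ≤ r ^ 2 := by nlinarith
    calc (r + K) ^ 2 ≤ (r ^ 2) ^ 2 := pow_le_pow_left₀ (by linarith) e2 2
      _ = r ^ 4 := by ring
  have hsub : ((ball r).filter (fun n => ∃ h ∈ S, ∃ p : P1, p ∈ E ∧
      r ^ (1 / 32 : ℝ) < nm (p : GaussianInt) ∧ n + h ≠ 0 ∧ (p : GaussianInt) ∣ n + h)) ⊆
      (EP E (r ^ (1 / 32 : ℝ)) (r ^ (4 : ℝ))).biUnion fun p => S.biUnion fun h =>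
        (ball r).filter (fun n => n + h ≠ 0 ∧ (p : GaussianInt) ∣ n + h) := by
    intro n hn
    obtain ⟨hn1, h, hh, p, hpE, hpr, h0, hd⟩ := Finset.mem_filter.1 hn
    refine Finset.mem_biUnion.2 ⟨p, mem_EP.2 ⟨hpE, hpr, ?_⟩, Finset.mem_biUnion.2 ⟨h, hh,
      Finset.mem_filter.2 ⟨hn1, h0, hd⟩⟩⟩
    have g1 := nm_le_of_dvd h0 hd
    have g2 : nm (n + h) ≤ (r + K) ^ 2 := by
      rw [nm_eq, map_add]
      refine pow_le_pow_left₀ (norm_nonneg _) ?_ 2
      exact (norm_add_le _ _).trans (add_le_add (mem_ball.1 hn1).2 (hKh h hh))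
    exact g1.trans (g2.trans hr5)
  have hcard : (((ball r).filter (fun n => ∃ h ∈ S, ∃ p : P1, p ∈ E ∧
      r ^ (1 / 32 : ℝ) < nm (p : GaussianInt) ∧ n + h ≠ 0 ∧ (p : GaussianInt) ∣ n + h)).card : ℝ) ≤
      ∑ p ∈ EP E (r ^ (1 / 32 : ℝ)) (r ^ (4 : ℝ)), ∑ h ∈ S,
        (((ball r).filter (fun n => n + h ≠ 0 ∧ (p : GaussianInt) ∣ n + h)).card : ℝ) := by
    have g1 := (Finset.card_le_card hsub).trans Finset.card_biUnion_le
    have g2 : ∑ p ∈ EP E (r ^ (1 / 32 : ℝ)) (r ^ (4 : ℝ)), (S.biUnion fun h =>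
        (ball r).filter (fun n => n + h ≠ 0 ∧ (p : GaussianInt) ∣ n + h)).card ≤
        ∑ p ∈ EP E (r ^ (1 / 32 : ℝ)) (r ^ (4 : ℝ)), ∑ h ∈ S,
        ((ball r).filter (fun n => n + h ≠ 0 ∧ (p : GaussianInt) ∣ n + h)).card :=
      Finset.sum_le_sum fun p _ => Finset.card_biUnion_le
    exact_mod_cast g1.trans g2
  refine hcard.trans ?_
  calc ∑ p ∈ EP E (r ^ (1 / 32 : ℝ)) (r ^ (4 : ℝ)), ∑ h ∈ S,
        (((ball r).filter (fun n => n + h ≠ 0 ∧ (p : GaussianInt) ∣ n + h)).card : ℝ)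
      ≤ ∑ p ∈ EP E (r ^ (1 / 32 : ℝ)) (r ^ (4 : ℝ)), ∑ _h ∈ S, 36 * r ^ 2 / nm (p : GaussianInt) := by
        refine Finset.sum_le_sum fun p _ => Finset.sum_le_sum fun h hh => ?_
        refine (large_shift h p p.2.1.ne_zero (hKh h hh)).trans ?_
        have g1 : 0 < nm (p : GaussianInt) := by
          have := one_le_nm p.2.1.ne_zero
          linarith
        refine div_le_div_of_nonneg_right ?_ g1.le
        linarith
    _ = (S.card * (36 * r ^ 2)) * TE E (r ^ (1 / 32 : ℝ)) (r ^ (4 : ℝ)) := by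
        unfold TE
        rw [Finset.mul_sum]
        refine Finset.sum_congr rfl fun p _ => ?_
        rw [Finset.sum_const, nsmul_eq_mul]
        ring
    _ ≤ (S.card * (36 * r ^ 2)) * (ε / (36 * ((S.card : ℝ) + 1))) :=
        mul_le_mul_of_nonneg_left hr.le (by positivity)
    _ = ε * r ^ 2 * (S.card / ((S.card : ℝ) + 1)) := by
        field_simp
    _ ≤ ε * r ^ 2 * 1 := by
        refine mul_le_mul_of_nonneg_left ?_ (by positivity)
        rw [div_le_one (by positivity)]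
        linarith
    _ = ε * r ^ 2 := mul_one _

end Pool.Agent.RSG
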