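import Pool.Agent.RSZ.TEL
import Pool.Agent.RSZ.Bonf

set_option autoImplicit false

/-!
# Module Param: the choice of the buckets

Let `k = #S ≥ 1`, `T = TE E y (r^(1/32))`, `J = 2^I` with `I` the least natural number such that `8 e k (T + 1) ≤ 2^I`
(so `2^I ≤ 16 e k (T+1) = o(log r)` by `TE_small`, and `I → ∞` since `T → ∞`).
`v_i = r^(1/(32 * 2^i))` for `i ≤ I`; `A_i = EP E v_{i+1} v_i`, `b_i = i` for `i < I`; `A_I = EP E y v_I`, `b_I = 2^I - 1`; `N = I + 1`.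
`v_I → ∞` (its logarithm is `log r/(32 * 2^I)`), in particular `v_I ≥ y`.
Level: `∏ v_i^(b_i+1) = r^e`, `e = (1/32)(∑_{i<I} (i+1)/2^i + 1) ≤ 5/32 ≤ 1/4`.
`λ_i = ∑_{p ∈ A_i} kn S p = k TE E √v_i v_i ≤ η` for `i < I` if `r` is large (`√v_i = v_{i+1}`, `v_i ≥ v_I → ∞`, `h2`);
`es_le`: `2^(i+1) es (A i) (kn S) (i+1) ≤ (2λ_i)^(i+1)/(i+1)! ≤ (2η)^(i+1)/(i+1)!`, the sum over `i` is at most `e^(2η) - 1`;
for `i = I`: `(2kT)^J/J! ≤ (2ekT/J)^J ≤ 4^(-J) → 0` (`J! ≥ (J/e)^J`, Mathlib `Nat.factorial` lower bound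
`Real.exp_pos`/`Nat.factorial_lt`..; `J^J/J! ≤ e^J` is one term of the exponential series).
`∏ (1 + x_i) ≤ exp (∑ x_i)` (`Real.add_one_le_exp`).  Mass: `2 ∑∑ kn = 2 k T ≤ (1/4) log r`.
-/

open Filter Topology MeasureTheory ProbabilityTheory

namespace Pool.Agent.RSG

open Pool.Agent.GaussPret Pool.Agent.MRG
open scoped Nat

/-- `v_i` -/
private noncomputable def pv (r : ℝ) (i : ℕ) : ℝ := r ^ ((1 : ℝ) / (32 * 2 ^ i))

private lemma pv_zero (r : ℝ) : pv r 0 = r ^ (1 / 32 : ℝ) := by simp [pv]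

private lemma pv_one_le {r : ℝ} (hr : 1 ≤ r) (i : ℕ) : 1 ≤ pv r i :=
  Real.one_le_rpow hr (by positivity)

private lemma pv_anti {r : ℝ} (hr : 1 ≤ r) {i j : ℕ} (hij : i ≤ j) : pv r j ≤ pv r i := by
  refine Real.rpow_le_rpow_of_exponent_le hr ?_
  have h1 : (2 : ℝ) ^ i ≤ 2 ^ j := pow_le_pow_right₀ (by norm_num) hij
  exact one_div_le_one_div_of_le (by positivity) (by linarith)

private lemma pv_sqrt {r : ℝ} (hr : 1 ≤ r) (i : ℕ) : Real.sqrt (pv r i) = pv r (i + 1) := by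
  rw [Real.sqrt_eq_rpow, pv, pv, ← Real.rpow_mul (by linarith)]
  congr 1
  rw [pow_succ]
  field_simp

private lemma pv_pow {r : ℝ} (hr : 0 ≤ r) (i m : ℕ) :
    pv r i ^ m = r ^ ((1 : ℝ) / (32 * 2 ^ i) * m) := by
  rw [Real.rpow_mul hr, Real.rpow_natCast, pv]

private lemma pv_prod {r : ℝ} (hr : 1 ≤ r) (n : ℕ) :
    ∏ i ∈ Finset.range n, pv r i ^ (i + 1) = r ^ ((4 - (2 * n + 4) / 2 ^ n) / 32 : ℝ) := by
  have hr0 : 0 < r := by linarith
  induction n with
  | zero => simp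
  | succ n ih =>
    rw [Finset.prod_range_succ, ih, pv_pow hr0.le, ← Real.rpow_add hr0]
    congr 1
    push_cast
    rw [pow_succ]
    field_simp
    ring

private lemma perr_last {x : ℝ} (hx : 0 ≤ x) {J : ℕ} (hJ : 0 < J)
    (h : 4 * Real.exp 1 * x ≤ J) : x ^ J / (J ! : ℝ) ≤ (1 / 4) ^ J := by
  have he : 0 < Real.exp 1 := Real.exp_pos 1
  have hJ' : (0 : ℝ) < J := mod_cast hJ
  have h1 : x ≤ (J : ℝ) / (4 * Real.exp 1) := by
    rw [le_div_iff₀ (by positivity)]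
    linarith
  have h2 : (J : ℝ) ^ J / (J ! : ℝ) ≤ Real.exp J := Real.pow_div_factorial_le_exp _ hJ'.le J
  have h3 : Real.exp (J : ℝ) = Real.exp 1 ^ J := by
    rw [← Real.exp_nat_mul, mul_one]
  calc x ^ J / (J ! : ℝ) ≤ ((J : ℝ) / (4 * Real.exp 1)) ^ J / (J ! : ℝ) := by gcongr
    _ = (1 / (4 * Real.exp 1)) ^ J * ((J : ℝ) ^ J / (J ! : ℝ)) := by
      rw [div_pow, div_pow, one_pow]
      ring
    _ ≤ (1 / (4 * Real.exp 1)) ^ J * Real.exp 1 ^ J := by
      rw [← h3]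
      gcongr
    _ = (1 / 4) ^ J := by
      rw [← mul_pow]
      congr 1
      field_simp

private lemma pprod_le (N : ℕ) (x : ℕ → ℝ) (hx : ∀ i ∈ Finset.range N, 0 ≤ x i) :
    ∏ i ∈ Finset.range N, (1 + x i) ≤ Real.exp (∑ i ∈ Finset.range N, x i) := by
  rw [Real.exp_sum]
  exact Finset.prod_le_prod (fun i hi => by have := hx i hi; linarith)
    (fun i _ => by have := Real.add_one_le_exp (x i); linarith)

private lemma psum_kn (E : Set P1) (S : Finset GaussianInt) (a b : ℝ) :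
    ∑ p ∈ EP E a b, kn S p = (S.card : ℝ) * TE E a b := by
  rw [TE, Finset.mul_sum]
  refine Finset.sum_congr rfl fun p _ => ?_
  rw [kn]
  ring

private lemma pkn_nonneg (S : Finset GaussianInt) (p : P1) : 0 ≤ kn S p := by
  rw [kn]
  refine div_nonneg (Nat.cast_nonneg _) ?_
  rw [nm_eq]
  positivity

/-- the buckets -/
private noncomputable def pA (E : Set P1) (y r : ℝ) (I i : ℕ) : Finset P1 :=
  if i < I then EP E (pv r (i + 1)) (pv r i) else EP E y (pv r I)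

private def pb (I i : ℕ) : ℕ := if i < I then i else 2 ^ I - 1

private lemma pA_lt {E : Set P1} {y r : ℝ} {I i : ℕ} (h : i < I) :
    pA E y r I i = EP E (pv r (i + 1)) (pv r i) := if_pos h

private lemma pA_eq {E : Set P1} {y r : ℝ} {I : ℕ} : pA E y r I I = EP E y (pv r I) :=
  if_neg (lt_irrefl _)

private lemma pb_lt {I i : ℕ} (h : i < I) : pb I i = i := if_pos h

private lemma pb_eq {I : ℕ} : pb I I + 1 = 2 ^ I := by
  rw [pb, if_neg (lt_irrefl _)]
  have := Nat.one_le_two_pow (n := I)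
  omega

private lemma pA_le {E : Set P1} {y r : ℝ} {I i : ℕ} (hi : i < I + 1) {p : P1}
    (hp : p ∈ pA E y r I i) : nm (p : GaussianInt) ≤ pv r i := by
  rcases (Nat.lt_succ_iff_lt_or_eq.1 hi) with h | rfl
  · rw [pA_lt h, mem_EP] at hp
    exact hp.2.2
  · rw [pA_eq, mem_EP] at hp
    exact hp.2.2

private lemma pA_gt {E : Set P1} {y r : ℝ} {I i : ℕ} (hi : i < I) {p : P1}
    (hp : p ∈ pA E y r I i) : pv r (i + 1) < nm (p : GaussianInt) := by
  rw [pA_lt hi, mem_EP] at hp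
  exact hp.2.1

private lemma pA_disj {E : Set P1} {y r : ℝ} (hr : 1 ≤ r) {I i j : ℕ} (hij : i < j)
    (hj : j < I + 1) : Disjoint (pA E y r I i) (pA E y r I j) := by
  rw [Finset.disjoint_left]
  intro p hp hq
  have h1 := pA_gt (by omega) hp
  have h2 := pA_le hj hq
  have h3 := pv_anti hr (show i + 1 ≤ j from hij)
  linarith

private lemma pA_union {E : Set P1} {y r : ℝ} (hr : 1 ≤ r) {I : ℕ} (hy : y ≤ pv r I) :
    open scoped Classical in
    (Finset.range (I + 1)).biUnion (pA E y r I) = EP E y (r ^ (1 / 32 : ℝ)) := by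
  classical
  ext p
  rw [Finset.mem_biUnion, mem_EP]
  constructor
  · rintro ⟨i, hi, hp⟩
    have hi' : i < I + 1 := Finset.mem_range.1 hi
    have h1 := (pA_le hi' hp).trans (pv_anti hr (Nat.zero_le i))
    rw [pv_zero] at h1
    rcases (Nat.lt_succ_iff_lt_or_eq.1 hi') with h | rfl
    · rw [pA_lt h, mem_EP] at hp
      exact ⟨hp.1, (hy.trans (pv_anti hr (show i + 1 ≤ I from h))).trans_lt hp.2.1, h1⟩
    · rw [pA_eq, mem_EP] at hp
      exact ⟨hp.1, hp.2.1, h1⟩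
  · rintro ⟨hE, hyp, hp⟩
    by_cases hI : nm (p : GaussianInt) ≤ pv r I
    · exact ⟨I, by simp, by rw [pA_eq, mem_EP]; exact ⟨hE, hyp, hI⟩⟩
    · push Not at hI
      classical
      have hex : ∃ i, pv r i < nm (p : GaussianInt) := ⟨I, hI⟩
      have hf := Nat.find_spec hex
      have hle : Nat.find hex ≤ I := Nat.find_min' hex hI
      have h0 : Nat.find hex ≠ 0 := by
        intro h0
        rw [h0, pv_zero] at hf
        linarith
      obtain ⟨m, hm⟩ := Nat.exists_eq_succ_of_ne_zero h0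
      have hm' := Nat.find_min hex (show m < Nat.find hex by omega)
      refine ⟨m, Finset.mem_range.2 (by omega), ?_⟩
      rw [pA_lt (by omega), mem_EP]
      rw [hm] at hf
      exact ⟨hE, hf, not_lt.1 hm'⟩

/-- the level -/
private lemma plevel {r : ℝ} (hr : 1 ≤ r) (I : ℕ) :
    ∏ i ∈ Finset.range (I + 1), pv r i ^ (pb I i + 1) ≤ r ^ (1 / 4 : ℝ) := by
  have hr0 : 0 < r := by linarith
  rw [Finset.prod_range_succ, pb_eq]
  have h1 : ∏ i ∈ Finset.range I, pv r i ^ (pb I i + 1) =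
      ∏ i ∈ Finset.range I, pv r i ^ (i + 1) := by
    refine Finset.prod_congr rfl fun i hi => ?_
    rw [pb_lt (Finset.mem_range.1 hi)]
  rw [h1, pv_prod hr, pv_pow hr0.le, ← Real.rpow_add hr0]
  refine Real.rpow_le_rpow_of_exponent_le hr ?_
  have h2 : (0 : ℝ) ≤ (2 * I + 4) / 2 ^ I := by positivity
  have h3 : (1 : ℝ) / (32 * 2 ^ I) * ((2 ^ I : ℕ) : ℝ) = 1 / 32 := by
    push_cast
    field_simp
  rw [h3]
  linarith

/-- the error -/
private lemma perr {E : Set P1} {y r : ℝ} (hr : 1 ≤ r) {S : Finset GaussianInt} {I : ℕ}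
    {η : ℝ} (hη : 0 ≤ η)
    (h : ∀ i < I, (S.card : ℝ) * TE E (Real.sqrt (pv r i)) (pv r i) ≤ η)
    (hJ : 8 * Real.exp 1 * S.card * TE E y (pv r I) ≤ 2 ^ I) :
    ∑ i ∈ Finset.range (I + 1), 2 ^ (pb I i + 1) * es (pA E y r I i) (kn S) (pb I i + 1) ≤
      Real.exp (2 * η) - 1 + (1 / 4) ^ (2 ^ I) := by
  rw [Finset.sum_range_succ, pb_eq]
  refine add_le_add ?_ ?_
  · have h1 : ∀ i ∈ Finset.range I,
        2 ^ (pb I i + 1) * es (pA E y r I i) (kn S) (pb I i + 1) ≤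
          (2 * η) ^ (i + 1) / ((i + 1) ! : ℝ) := by
      intro i hi
      have hi' := Finset.mem_range.1 hi
      rw [pb_lt hi', pA_lt hi']
      have h2 := es_le (EP E (pv r (i + 1)) (pv r i)) (x := kn S)
        (fun p _ => pkn_nonneg S p) (i + 1)
      rw [psum_kn, ← pv_sqrt hr] at h2
      rw [← pv_sqrt hr]
      have h3 : 0 ≤ (S.card : ℝ) * TE E (Real.sqrt (pv r i)) (pv r i) :=
        mul_nonneg (Nat.cast_nonneg _) (TE_nonneg _ _ _)
      calc 2 ^ (i + 1) * es (EP E (Real.sqrt (pv r i)) (pv r i)) (kn S) (i + 1)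
          ≤ 2 ^ (i + 1) * (((S.card : ℝ) * TE E (Real.sqrt (pv r i)) (pv r i)) ^ (i + 1) /
            ((i + 1) ! : ℝ)) := by gcongr
        _ ≤ 2 ^ (i + 1) * (η ^ (i + 1) / ((i + 1) ! : ℝ)) := by
          have := h i hi'
          gcongr
        _ = (2 * η) ^ (i + 1) / ((i + 1) ! : ℝ) := by
          rw [mul_pow]
          ring
    refine (Finset.sum_le_sum h1).trans ?_
    have h4 := Real.sum_le_exp_of_nonneg (show 0 ≤ 2 * η by positivity) (I + 1)
    rw [Finset.sum_range_succ'] at h4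
    simp only [pow_zero, Nat.factorial_zero, Nat.cast_one, div_one] at h4
    linarith
  · rw [pA_eq]
    have h2 := es_le (EP E y (pv r I)) (x := kn S) (fun p _ => pkn_nonneg S p) (2 ^ I)
    rw [psum_kn] at h2
    have h3 : 0 ≤ (S.card : ℝ) * TE E y (pv r I) :=
      mul_nonneg (Nat.cast_nonneg _) (TE_nonneg _ _ _)
    calc 2 ^ (2 ^ I) * es (EP E y (pv r I)) (kn S) (2 ^ I)
        ≤ 2 ^ (2 ^ I) * (((S.card : ℝ) * TE E y (pv r I)) ^ (2 ^ I) / ((2 ^ I) ! : ℝ)) := by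
          gcongr
      _ = (2 * ((S.card : ℝ) * TE E y (pv r I))) ^ (2 ^ I) / ((2 ^ I) ! : ℝ) := by
          rw [mul_pow]
          ring
      _ ≤ (1 / 4) ^ (2 ^ I) := by
          refine perr_last (by positivity) (by positivity) ?_
          push_cast
          linarith

private lemma ppow_quarter (I : ℕ) {c : ℝ} (hc : 0 < c) (h : 2 / c ≤ 2 ^ I) :
    ((1 : ℝ) / 4) ^ (2 ^ I) ≤ c / 2 := by
  have h1 : ((2 ^ I : ℕ) : ℝ) ≤ 4 ^ (2 ^ I) := by
    exact_mod_cast (Nat.lt_pow_self (show 1 < 4 by norm_num)).le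
  have h2 : (0 : ℝ) < 2 / c := by positivity
  push_cast at h1
  rw [div_pow, one_pow]
  calc (1 : ℝ) / 4 ^ (2 ^ I) ≤ 1 / (2 / c) := one_div_le_one_div_of_le h2 (h.trans h1)
    _ = c / 2 := by
      field_simp

open scoped Classical in
theorem param {E : Set P1} (h1 : Tendsto (fun t : ℝ => TE E 0 t) atTop atTop)
    (h2 : Tendsto (fun t : ℝ => TE E (Real.sqrt t) t) atTop (𝓝 0))
    {S : Finset GaussianInt} (hS : S.Nonempty) {y : ℝ} (hy : 1 ≤ y) {ε : ℝ} (hε : 0 < ε) :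
    ∀ᶠ r : ℝ in atTop, ∃ (N : ℕ) (A : ℕ → Finset P1) (v : ℕ → ℝ) (b : ℕ → ℕ),
      (∀ i < N, ∀ j < N, i ≠ j → Disjoint (A i) (A j)) ∧ (∀ i < N, 1 ≤ v i) ∧
      (∀ i < N, ∀ p ∈ A i, nm (p : GaussianInt) ≤ v i) ∧
      (Finset.range N).biUnion A = EP E y (r ^ (1 / 32 : ℝ)) ∧
      ∏ i ∈ Finset.range N, v i ^ (b i + 1) ≤ r ^ (1 / 4 : ℝ) ∧
      ∏ i ∈ Finset.range N, (1 + 2 ^ (b i + 1) * es (A i) (kn S) (b i + 1)) - 1 ≤ ε ∧
      Real.exp (2 * ∑ i ∈ Finset.range N, ∑ p ∈ A i, kn S p) ≤ r ^ (1 / 4 : ℝ) := by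
  have hk : (1 : ℝ) ≤ (S.card : ℝ) := mod_cast hS.card_pos
  have he1 : 1 ≤ Real.exp 1 := Real.one_le_exp (by norm_num)
  have hc : 0 < Real.log (1 + ε) := Real.log_pos (by linarith)
  obtain ⟨c, hcdef⟩ : ∃ c, c = Real.log (1 + ε) := ⟨_, rfl⟩
  rw [← hcdef] at hc
  obtain ⟨k, hkdef⟩ : ∃ k : ℝ, k = (S.card : ℝ) := ⟨_, rfl⟩
  rw [← hkdef] at hk
  obtain ⟨e, hedef⟩ : ∃ e : ℝ, e = Real.exp 1 := ⟨_, rfl⟩
  rw [← hedef] at he1
  have hk0 : 0 < k := by linarith
  have he0 : 0 < e := by linarith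
  obtain ⟨η, hη, hη2⟩ : ∃ η : ℝ, 0 < η ∧ Real.exp (2 * η) - 1 ≤ c / 2 := by
    refine ⟨Real.log (1 + c / 2) / 2, ?_, ?_⟩
    · have := Real.log_pos (show 1 < 1 + c / 2 by linarith)
      linarith
    · rw [show 2 * (Real.log (1 + c / 2) / 2) = Real.log (1 + c / 2) by ring,
        Real.exp_log (by linarith)]
      linarith
  have ht : ∀ᶠ t : ℝ in atTop, TE E (Real.sqrt t) t ≤ η / k :=
    (h2.eventually_lt_const (show 0 < η / k by positivity)).mono fun t h => h.le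
  obtain ⟨t0, ht0⟩ := eventually_atTop.1 ht
  obtain ⟨L, hL, hLe⟩ : ∃ L : ℝ, 1 ≤ L ∧ max t0 y ≤ Real.exp L := by
    refine ⟨max 1 (Real.log (max 1 (max t0 y))), le_max_left _ _, ?_⟩
    calc max t0 y ≤ max 1 (max t0 y) := le_max_right _ _
      _ = Real.exp (Real.log (max 1 (max t0 y))) :=
        (Real.exp_log (lt_max_of_lt_left one_pos)).symm
      _ ≤ _ := Real.exp_le_exp.2 (le_max_right _ _)
  have hL0 : 0 < L := by linarith
  obtain ⟨θ, hθdef⟩ : ∃ θ : ℝ, θ = 1 / (1024 * e * k * L) := ⟨_, rfl⟩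
  have hθ : 0 < θ := by rw [hθdef]; positivity
  have hθ1 : 1024 * e * k * L * θ = 1 := by
    rw [hθdef]
    field_simp
  have hT : Tendsto (fun r : ℝ => TE E y (r ^ (1 / 32 : ℝ))) atTop atTop := by
    have h3 : Tendsto (fun r : ℝ => TE E 0 (r ^ (1 / 32 : ℝ)) + -TE E 0 y) atTop atTop :=
      tendsto_atTop_add_const_right _ _ (h1.comp (tendsto_rpow_atTop (by norm_num)))
    refine h3.congr' ?_
    filter_upwards [(tendsto_rpow_atTop (show (0 : ℝ) < 1 / 32 by norm_num)).eventually_ge_atTop y]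
      with r hr
    rw [TE_add E (show (0 : ℝ) ≤ y by linarith) hr]
    ring
  filter_upwards [eventually_ge_atTop (1 : ℝ), TE_small E θ hθ,
    Real.tendsto_log_atTop.eventually_ge_atTop (1 / θ), hT.eventually_ge_atTop (2 / c)]
    with r hr hs hl hTc
  have hr0 : 0 < r := by linarith
  have hr32 : r ^ (1 / 32 : ℝ) ≤ r := by
    have := Real.rpow_le_rpow_of_exponent_le hr (show (1 / 32 : ℝ) ≤ 1 by norm_num)
    rwa [Real.rpow_one] at this
  have hTle : TE E y (r ^ (1 / 32 : ℝ)) ≤ θ * Real.log r :=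
    (TE_mono E (by linarith) hr32).trans hs
  obtain ⟨T, hTdef⟩ : ∃ T, T = TE E y (r ^ (1 / 32 : ℝ)) := ⟨_, rfl⟩
  rw [← hTdef] at hTc hTle
  have hT0 : 0 ≤ T := by
    rw [hTdef]
    exact TE_nonneg _ _ _
  have hl1 : 1 ≤ θ * Real.log r := by
    rw [div_le_iff₀ hθ] at hl
    linarith
  have hek : 1 ≤ e * k := by nlinarith
  have hx1 : 1 ≤ 8 * e * k * (T + 1) := by nlinarith
  obtain ⟨n, hn1, hn2⟩ := exists_nat_pow_near hx1 (one_lt_two : (1 : ℝ) < 2)
  obtain ⟨I, hI⟩ : ∃ I, I = n + 1 := ⟨_, rfl⟩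
  rw [← hI] at hn2
  have hJ2 : (2 : ℝ) ^ I ≤ 2 * (8 * e * k * (T + 1)) := by
    rw [hI, pow_succ]
    linarith
  have hJ0 : (0 : ℝ) < 2 ^ I := by positivity
  have hvI : Real.exp L ≤ pv r I := by
    rw [pv, Real.rpow_def_of_pos hr0]
    apply Real.exp_le_exp.2
    rw [mul_one_div, le_div_iff₀ (by positivity)]
    have h3 : (2 : ℝ) ^ I ≤ 32 * e * k * (θ * Real.log r) := by
      refine hJ2.trans ?_
      have h4 : T + 1 ≤ 2 * (θ * Real.log r) := by linarith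
      have h5 : 0 ≤ e * k := by positivity
      nlinarith
    calc L * (32 * 2 ^ I) ≤ L * (32 * (32 * e * k * (θ * Real.log r))) := by gcongr
      _ = (1024 * e * k * L * θ) * Real.log r := by ring
      _ = Real.log r := by rw [hθ1, one_mul]
  have hyI : y ≤ pv r I := ((le_max_right _ _).trans hLe).trans hvI
  have htI : t0 ≤ pv r I := ((le_max_left _ _).trans hLe).trans hvI
  have hun := pA_union (E := E) hr hyI
  have hdis : ∀ i < I + 1, ∀ j < I + 1, i ≠ j → Disjoint (pA E y r I i) (pA E y r I j) := by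
    intro i hi j hj hij
    rcases lt_or_gt_of_ne hij with h | h
    · exact pA_disj hr h hj
    · exact (pA_disj hr h hi).symm
  refine ⟨I + 1, pA E y r I, pv r, pb I, hdis, fun i _ => pv_one_le hr i,
    fun i hi p hp => pA_le hi hp, hun, plevel hr I, ?_, ?_⟩
  · have h3 := pprod_le (I + 1)
      (fun i => 2 ^ (pb I i + 1) * es (pA E y r I i) (kn S) (pb I i + 1))
      (fun i _ => mul_nonneg (by positivity) (es_nonneg _ (fun p _ => pkn_nonneg S p) _))
    have h4 := perr (E := E) (y := y) hr (S := S) (I := I) hη.le (by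
      intro i hi
      have h5 := ht0 (pv r i) (htI.trans (pv_anti hr hi.le))
      rw [le_div_iff₀ hk0] at h5
      rw [← hkdef]
      linarith) (by
      rw [← hkdef, ← hedef]
      have h5 : TE E y (pv r I) ≤ T := by
        rw [hTdef, ← pv_zero]
        exact TE_mono E le_rfl (pv_anti hr (Nat.zero_le I))
      refine le_trans ?_ hn2.le
      have h6 : 0 ≤ 8 * e * k := by positivity
      nlinarith)
    have h5 : ((1 : ℝ) / 4) ^ (2 ^ I) ≤ c / 2 := by
      refine ppow_quarter I hc (hTc.trans (le_trans ?_ hn2.le))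
      nlinarith
    have h6 : Real.exp (∑ i ∈ Finset.range (I + 1),
        2 ^ (pb I i + 1) * es (pA E y r I i) (kn S) (pb I i + 1)) ≤ 1 + ε := by
      calc _ ≤ Real.exp c := Real.exp_le_exp.2 (by linarith)
        _ = 1 + ε := by rw [hcdef, Real.exp_log (by linarith)]
    linarith
  · have h3 : ∑ i ∈ Finset.range (I + 1), ∑ p ∈ pA E y r I i, kn S p = k * T := by
      rw [← Finset.sum_biUnion (fun i hi j hj hij => hdis i (by simpa using hi) j
        (by simpa using hj) hij), hun, psum_kn, hkdef, hTdef]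
    rw [h3, Real.rpow_def_of_pos hr0]
    apply Real.exp_le_exp.2
    have hlog : 0 ≤ Real.log r := Real.log_nonneg hr
    have h4 : 8 * k * θ ≤ 1 := by
      have h5 : 8 * k * θ ≤ 1024 * e * k * L * θ := by
        have h6 : 1 ≤ e * L := by nlinarith
        have h7 : 0 < k * θ := by positivity
        nlinarith
      linarith
    have h8 : k * T ≤ k * (θ * Real.log r) := mul_le_mul_of_nonneg_left hTle hk0.le
    nlinarith

end Pool.Agent.RSG
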