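import Pool.Agent.RSZ.Bucket
import Pool.Agent.RSZ.Param

set_option autoImplicit false

/-!
# Module Mid: the middle primes kill every periodic weight

For `r` large take the buckets of `param` (with `ε/…`), for each residue class `x ∈ ZMod Q × ZMod Q` apply `bucket` with
`q = (Q : GaussianInt)`, `a = rep x` (`res Q n = x ↔ (Q : GaussianInt) ∣ n - rep x`, `eq_rep_add`, `res_rep_add` in GaussPret/Per),
`c n = c (rep x)` on the class (`Per.eq_rep`), `|c| ≤ 1`; `nm Q = Q^2`.  The double product over the buckets is the product over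
`EP E y (r^(1/32))` (`Finset.prod_biUnion`), and `∏ (1 - 2 kn) ≤ exp (-2 k TE E y (r^(1/32))) → 0`
(`0 ≤ 1 - 2 kn ≤ exp (-2 kn)` since `2 #S ≤ nm p`; `TE E y (r^(1/32)) → ∞`).
Total: `≤ π r^2 (small) + Q^2 K r r^(1/4) r^(1/4)`.
-/

open Filter Topology MeasureTheory ProbabilityTheory

namespace Pool.Agent.RSG

open Pool.Agent.GaussPret Pool.Agent.MRG

private theorem mid_te {E : Set P1} (h1 : Tendsto (fun t : ℝ => TE E 0 t) atTop atTop) (y : ℝ) :
    Tendsto (fun t : ℝ => TE E y t) atTop atTop := by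
  classical
  have h2 : ∀ t : ℝ, TE E 0 t + (-TE E 0 y) ≤ TE E y t := by
    intro t
    have h0 : ∀ p : P1, 0 ≤ 1 / nm (p : GaussianInt) := fun p => one_div_nonneg.2 (nm_nonneg _)
    have hsub : EP E 0 t ⊆ EP E 0 y ∪ EP E y t := by
      intro p hp
      rw [Finset.mem_union, mem_EP, mem_EP]
      rw [mem_EP] at hp
      rcases le_or_gt (nm (p : GaussianInt)) y with h | h
      · exact Or.inl ⟨hp.1, hp.2.1, h⟩
      · exact Or.inr ⟨hp.1, h, hp.2.2⟩
    have h3 : TE E 0 t ≤ ∑ p ∈ EP E 0 y ∪ EP E y t, 1 / nm (p : GaussianInt) :=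
      Finset.sum_le_sum_of_subset_of_nonneg hsub fun p _ _ => h0 p
    have h4 : ∑ p ∈ EP E 0 y ∪ EP E y t, 1 / nm (p : GaussianInt) +
        ∑ p ∈ EP E 0 y ∩ EP E y t, 1 / nm (p : GaussianInt) = TE E 0 y + TE E y t :=
      Finset.sum_union_inter
    have h5 : 0 ≤ ∑ p ∈ EP E 0 y ∩ EP E y t, 1 / nm (p : GaussianInt) :=
      Finset.sum_nonneg fun p _ => h0 p
    linarith
  exact tendsto_atTop_mono h2 (tendsto_atTop_add_const_right _ _ h1)

private theorem mid_res {Q : ℕ} [NeZero Q] (n : GaussianInt) (x : ZMod Q × ZMod Q) :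
    res Q n = x ↔ (Q : GaussianInt) ∣ n - rep x := by
  constructor
  · rintro rfl
    refine ⟨⟨n.re / Q, n.im / Q⟩, ?_⟩
    have h := eq_rep_add (Q := Q) n
    rw [sub_eq_iff_eq_add']
    exact h
  · rintro ⟨b, hb⟩
    rw [sub_eq_iff_eq_add'] at hb
    rw [hb]
    exact res_rep_add x b

open scoped Classical in
theorem mid {E : Set P1} (h1 : Tendsto (fun t : ℝ => TE E 0 t) atTop atTop)
    (h2 : Tendsto (fun t : ℝ => TE E (Real.sqrt t) t) atTop (𝓝 0))
    {S : Finset GaussianInt} (hS : S.Nonempty) {y : ℝ} (hy : 1 ≤ y) {Q : ℕ} [NeZero Q]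
    {c : GaussianInt → ℝ} (hc : Per Q c) (hc1 : ∀ n, |c n| ≤ 1)
    (hok : ∀ p : P1, y < nm (p : GaussianInt) → Ok S (Q : GaussianInt) p) {ε : ℝ} (hε : 0 < ε) :
    ∀ᶠ r : ℝ in atTop,
      |∑ n ∈ ball r, c n * ∏ p ∈ EP E y (r ^ (1 / 32 : ℝ)), (1 - 2 * xh S n p)| ≤ ε * r ^ 2 := by
  obtain ⟨K, hK, hB⟩ := bucket
  have hpi := Real.pi_pos
  have hQ0 : (0 : ℝ) < Q := by exact_mod_cast NeZero.pos Q
  have hQne : (Q : GaussianInt) ≠ 0 := by exact_mod_cast NeZero.ne Q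
  have hnmQ : nm (Q : GaussianInt) = (Q : ℝ) ^ 2 := by
    rw [nm_eq, map_natCast, Complex.norm_natCast]
  have hk : (0 : ℝ) < S.card := by exact_mod_cast hS.card_pos
  obtain ⟨ε1, hε1, hε1'⟩ : ∃ ε1 : ℝ, 0 < ε1 ∧ Real.pi * (2 * ε1) = ε / 4 := by
    refine ⟨ε / (8 * Real.pi), by positivity, ?_⟩
    field_simp
    norm_num
  have hT : Tendsto (fun r : ℝ => TE E y (r ^ (1 / 32 : ℝ))) atTop atTop :=
    (mid_te h1 y).comp (tendsto_rpow_atTop (by norm_num))
  have hexp : ∀ᶠ r : ℝ in atTop,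
      Real.exp (-(2 * S.card * TE E y (r ^ (1 / 32 : ℝ)))) ≤ ε / (4 * Real.pi) := by
    have h3 : Tendsto (fun r : ℝ => Real.exp (-(2 * S.card * TE E y (r ^ (1 / 32 : ℝ)))))
        atTop (𝓝 0) :=
      Real.tendsto_exp_neg_atTop_nhds_zero.comp (hT.const_mul_atTop (by positivity))
    exact h3.eventually (ge_mem_nhds (by positivity))
  filter_upwards [param h1 h2 hS hy hε1, hexp, eventually_ge_atTop (1 : ℝ),
    eventually_ge_atTop ((Q : ℝ) ^ 2), eventually_ge_atTop ((4 * (Q : ℝ) ^ 2 * K / ε) ^ 2)]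
    with r hpar hexp hr1 hr2 hr3
  obtain ⟨N, A, v, b, hdis, hv, hAv, hbi, hlev, hes, hmass⟩ := hpar
  have hr0 : 0 < r := by linarith
  have hq : r ^ (1 / 4 : ℝ) * r ^ (1 / 4 : ℝ) = Real.sqrt r := by
    rw [← Real.rpow_add hr0, Real.sqrt_eq_rpow]
    norm_num
  have hq4 : r ^ (1 / 4 : ℝ) ≤ r := by
    calc r ^ (1 / 4 : ℝ) ≤ r ^ (1 : ℝ) := Real.rpow_le_rpow_of_exponent_le hr1 (by norm_num)
      _ = r := Real.rpow_one r
  have hq0 : 0 ≤ r ^ (1 / 4 : ℝ) := by positivity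
  -- the product over the buckets
  have hdis' : Set.PairwiseDisjoint (↑(Finset.range N) : Set ℕ) A := by
    intro i hi j hj hij
    exact hdis i (Finset.mem_range.1 hi) j (Finset.mem_range.1 hj) hij
  have hprod : ∀ f : P1 → ℝ, ∏ i ∈ Finset.range N, ∏ p ∈ A i, f p =
      ∏ p ∈ EP E y (r ^ (1 / 32 : ℝ)), f p := by
    intro f
    rw [← hbi, Finset.prod_biUnion hdis']
  have hAok : ∀ i < N, ∀ p ∈ A i, Ok S (Q : GaussianInt) p := by
    intro i hi p hp
    have h3 : p ∈ EP E y (r ^ (1 / 32 : ℝ)) := by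
      rw [← hbi]
      exact Finset.mem_biUnion.2 ⟨i, Finset.mem_range.2 hi, hp⟩
    exact hok p (mem_EP.1 h3).2.1
  -- the constant product
  have hδ : |∏ i ∈ Finset.range N, ∏ p ∈ A i, (1 - 2 * kn S p)| ≤ ε / (4 * Real.pi) := by
    rw [hprod]
    refine le_trans ?_ hexp
    have h3 : ∀ p ∈ EP E y (r ^ (1 / 32 : ℝ)), 0 ≤ 1 - 2 * kn S p ∧
        1 - 2 * kn S p ≤ Real.exp (-(2 * kn S p)) := by
      intro p hp
      obtain ⟨-, -, h4⟩ := hok p (mem_EP.1 hp).2.1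
      have h5 : 0 < nm (p : GaussianInt) := by linarith
      refine ⟨?_, ?_⟩
      · unfold kn
        have h6 : 2 * ((S.card : ℝ) / nm (p : GaussianInt)) ≤ 1 := by
          rw [mul_div_assoc', div_le_one h5]
          exact h4
        linarith
      · have h6 := Real.add_one_le_exp (-(2 * kn S p))
        linarith
    rw [abs_of_nonneg (Finset.prod_nonneg fun p hp => (h3 p hp).1)]
    refine (Finset.prod_le_prod (fun p hp => (h3 p hp).1) fun p hp => (h3 p hp).2).trans ?_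
    rw [← Real.exp_sum]
    refine (congrArg Real.exp ?_).le
    unfold TE kn
    rw [Finset.mul_sum, ← Finset.sum_neg_distrib]
    refine Finset.sum_congr rfl fun p _ => ?_
    ring
  -- one class
  have hcls : ∀ x : ZMod Q × ZMod Q,
      |∑ n ∈ (ball r).filter (fun n => res Q n = x),
        ∏ p ∈ EP E y (r ^ (1 / 32 : ℝ)), (1 - 2 * xh S n p)| ≤
      Real.pi * r ^ 2 / (Q : ℝ) ^ 2 * (ε / (4 * Real.pi) + 2 * ε1) + K * r * Real.sqrt r := by
    intro x
    have h3 := hB S (Q : GaussianInt) (rep x) N A v b r hQne hr1 hdis hv hAv hAok ?_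
    · rw [hnmQ] at h3
      have h4 : (ball r).filter (fun n => res Q n = x) =
          (ball r).filter fun n => (Q : GaussianInt) ∣ n - rep x :=
        Finset.filter_congr fun n _ => mid_res n x
      rw [h4]
      have h5 : ∑ n ∈ (ball r).filter (fun n => (Q : GaussianInt) ∣ n - rep x),
          ∏ p ∈ EP E y (r ^ (1 / 32 : ℝ)), (1 - 2 * xh S n p) =
          ∑ n ∈ (ball r).filter (fun n => (Q : GaussianInt) ∣ n - rep x),
            ∏ i ∈ Finset.range N, ∏ p ∈ A i, (1 - 2 * xh S n p) :=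
        Finset.sum_congr rfl fun n _ => (hprod _).symm
      rw [h5]
      refine h3.trans (add_le_add ?_ ?_)
      · refine mul_le_mul_of_nonneg_left ?_ (by positivity)
        linarith
      · refine mul_le_mul_of_nonneg_left ?_ (by positivity)
        rw [← hq]
        exact mul_le_mul hlev hmass (Real.exp_pos _).le hq0
    · rw [hnmQ]
      calc (Q : ℝ) ^ 2 * ∏ i ∈ Finset.range N, v i ^ (b i + 1) ≤ (Q : ℝ) ^ 2 * r ^ (1 / 4 : ℝ) :=
            mul_le_mul_of_nonneg_left hlev (by positivity)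
        _ ≤ r * r := mul_le_mul hr2 hq4 hq0 hr0.le
        _ = r ^ 2 := by ring
  -- the sum over the classes
  rw [← Finset.sum_fiberwise (ball r) (fun n => res Q n)]
  refine (Finset.abs_sum_le_sum_abs _ _).trans ?_
  have h3 : ∀ x ∈ (Finset.univ : Finset (ZMod Q × ZMod Q)),
      |∑ n ∈ (ball r).filter (fun n => res Q n = x),
        c n * ∏ p ∈ EP E y (r ^ (1 / 32 : ℝ)), (1 - 2 * xh S n p)| ≤
      Real.pi * r ^ 2 / (Q : ℝ) ^ 2 * (ε / (4 * Real.pi) + 2 * ε1) + K * r * Real.sqrt r := by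
    intro x _
    have h4 : ∑ n ∈ (ball r).filter (fun n => res Q n = x),
        c n * ∏ p ∈ EP E y (r ^ (1 / 32 : ℝ)), (1 - 2 * xh S n p) =
        c (rep x) * ∑ n ∈ (ball r).filter (fun n => res Q n = x),
          ∏ p ∈ EP E y (r ^ (1 / 32 : ℝ)), (1 - 2 * xh S n p) := by
      rw [Finset.mul_sum]
      refine Finset.sum_congr rfl fun n hn => ?_
      rw [hc.eq_rep n, (Finset.mem_filter.1 hn).2]
    rw [h4, abs_mul]
    calc |c (rep x)| * |∑ n ∈ (ball r).filter (fun n => res Q n = x),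
          ∏ p ∈ EP E y (r ^ (1 / 32 : ℝ)), (1 - 2 * xh S n p)|
        ≤ 1 * |∑ n ∈ (ball r).filter (fun n => res Q n = x),
          ∏ p ∈ EP E y (r ^ (1 / 32 : ℝ)), (1 - 2 * xh S n p)| :=
          mul_le_mul_of_nonneg_right (hc1 _) (abs_nonneg _)
      _ ≤ _ := by
          rw [one_mul]
          exact hcls x
  refine (Finset.sum_le_card_nsmul _ _ _ h3).trans ?_
  have hcard : ((Finset.univ : Finset (ZMod Q × ZMod Q)).card : ℝ) = (Q : ℝ) ^ 2 := by
    rw [Finset.card_univ, Fintype.card_prod, ZMod.card]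
    push_cast
    ring
  rw [nsmul_eq_mul, hcard]
  have hs : 4 * (Q : ℝ) ^ 2 * K / ε ≤ Real.sqrt r := Real.le_sqrt_of_sq_le hr3
  rw [div_le_iff₀ hε] at hs
  have hs0 : 0 ≤ Real.sqrt r := Real.sqrt_nonneg r
  have hss : Real.sqrt r * Real.sqrt r = r := Real.mul_self_sqrt hr0.le
  have h4 : (Q : ℝ) ^ 2 * (Real.pi * r ^ 2 / (Q : ℝ) ^ 2 * (ε / (4 * Real.pi) + 2 * ε1) +
      K * r * Real.sqrt r) = (ε / 4 + Real.pi * (2 * ε1)) * r ^ 2 +
        (Q : ℝ) ^ 2 * K * Real.sqrt r * r := by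
    field_simp
  rw [h4, hε1']
  have h5 : (Q : ℝ) ^ 2 * K * Real.sqrt r * r ≤ ε / 4 * r ^ 2 := by
    have h6 : 4 * (Q : ℝ) ^ 2 * K * Real.sqrt r ≤ Real.sqrt r * ε * Real.sqrt r :=
      mul_le_mul_of_nonneg_right hs hs0
    have h7 : Real.sqrt r * ε * Real.sqrt r = ε * r := by
      calc Real.sqrt r * ε * Real.sqrt r = ε * (Real.sqrt r * Real.sqrt r) := by ring
        _ = ε * r := by rw [hss]
    rw [h7] at h6
    nlinarith [mul_le_mul_of_nonneg_right h6 hr0.le]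
  nlinarith [mul_nonneg hε.le (sq_nonneg r)]

end Pool.Agent.RSG
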