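import Pool.Agent.RSZ.Defs

set_option autoImplicit false

/-!
# Module SmallP: the small primes are periodic up to few exceptions

`c n = ∏_{h ∈ S} ∏_{p ∈ PL y} (xE E p) ^ (min (multiplicity p (n + h)) K)` (with the convention that the multiplicity of `0`
counts as `K`; e.g. use `#{j ∈ Icc 1 K : p^j ∣ n + h}` instead of the minimum), `Q = ∏_{p ∈ PL y} (natural norm of p)^K`:
`p^j ∣ Q` for `j ≤ K` (`p ∣ nm p = p * conj p`), so `c` is `Q`-periodic; a prime `p' : P1` dividing `Q` divides some `p * conj p`,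
so `nm p' ≤ y` (norms of associated/conjugate primes agree).
`c n ≠ ∏ …` only if some `p ∈ PL y` has `p^(K+1) ∣ n + h`, or `n + h = 0`; at most
`#S * (1 + #PL y * 9 (r + K')^2 / 2^(K+1)) ≤ ε r^2` (`card_ball_dvd_le`, `2 ≤ nm p`) if `K` is large, then `r` large.
-/

open Filter Topology MeasureTheory ProbabilityTheory

namespace Pool.Agent.RSG

open Pool.Agent.GaussPret Pool.Agent.MRG

/-- the exponent of `p`, at most `K` -/
private noncomputable def sp_v (K : ℕ) (p : P1) (m : GaussianInt) : ℕ := by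
  classical
  exact ((Finset.Icc 1 K).filter (fun j => (p : GaussianInt) ^ j ∣ m)).card

private theorem sp_v_eq {K : ℕ} {p : P1} {m : GaussianInt} (hm : m ≠ 0)
    (h : ¬ (p : GaussianInt) ^ (K + 1) ∣ m) : sp_v K p m = multiplicity (p : GaussianInt) m := by
  classical
  have hf : FiniteMultiplicity (p : GaussianInt) m := FiniteMultiplicity.of_prime_left (P1_prime p) hm
  have h1 : multiplicity (p : GaussianInt) m ≤ K := by
    by_contra hc
    exact h (hf.pow_dvd_iff_le_multiplicity.2 (by omega))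
  unfold sp_v
  have h2 : (Finset.Icc 1 K).filter (fun j => (p : GaussianInt) ^ j ∣ m) =
      Finset.Icc 1 (multiplicity (p : GaussianInt) m) := by
    ext j
    rw [Finset.mem_filter, Finset.mem_Icc, Finset.mem_Icc, hf.pow_dvd_iff_le_multiplicity]
    omega
  rw [h2, Nat.card_Icc]
  omega

private theorem sp_v_per {K : ℕ} {p : P1} {m m' : GaussianInt}
    (h : ∀ j, j ≤ K → ((p : GaussianInt) ^ j ∣ m ↔ (p : GaussianInt) ^ j ∣ m')) :
    sp_v K p m = sp_v K p m' := by
  classical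
  unfold sp_v
  congr 1
  refine Finset.filter_congr fun j hj => ?_
  rw [Finset.mem_Icc] at hj
  exact h j hj.2

private theorem sp_xE (E : Set P1) (p : P1) : xE E p = 1 ∨ xE E p = -1 := by
  unfold xE
  split_ifs
  · exact Or.inr rfl
  · exact Or.inl rfl

open scoped Classical in
private theorem sp_shift (h d : GaussianInt) (hd : d ≠ 0) {r K : ℝ}
    (hK : ‖GaussianInt.toComplex h‖ ≤ K) :
    (((ball r).filter (fun n => n + h ≠ 0 ∧ d ∣ n + h)).card : ℝ) ≤ 9 * (r + K) ^ 2 / nm d := by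
  refine le_trans ?_ (card_ball_dvd_le (r + K) d hd)
  have h1 : ((ball r).filter (fun n => n + h ≠ 0 ∧ d ∣ n + h)).card ≤
      ((ball (r + K)).filter (fun n => d ∣ n)).card := by
    apply Finset.card_le_card_of_injOn (fun n => n + h)
    · intro n hn
      obtain ⟨h2, h3, h4⟩ := Finset.mem_filter.1 hn
      refine Finset.mem_filter.2 ⟨mem_ball.2 ⟨h3, ?_⟩, h4⟩
      have h5 := (mem_ball.1 h2).2
      show ‖GaussianInt.toComplex (n + h)‖ ≤ r + K
      rw [map_add]
      exact (norm_add_le _ _).trans (add_le_add h5 hK)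
    · intro a _ b _ hab
      exact add_right_cancel hab
  exact_mod_cast h1

open scoped Classical in
/-- the exceptional set -/
private theorem sp_card (S : Finset GaussianInt) (y : ℝ) (K : ℕ) {H r : ℝ} (hH : ∀ h ∈ S,
    ‖GaussianInt.toComplex h‖ ≤ H) :
    (((ball r).filter (fun n => ∃ h ∈ S, n + h = 0 ∨ ∃ p ∈ PL y,
      n + h ≠ 0 ∧ (p : GaussianInt) ^ (K + 1) ∣ n + h)).card : ℝ) ≤
      (S.card : ℝ) * (1 + ((PL y).card : ℝ) * (9 * (r + H) ^ 2 / 2 ^ (K + 1))) := by
  have h1 : (ball r).filter (fun n => ∃ h ∈ S, n + h = 0 ∨ ∃ p ∈ PL y,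
      n + h ≠ 0 ∧ (p : GaussianInt) ^ (K + 1) ∣ n + h) ⊆
      S.biUnion (fun h => (ball r).filter (fun n => n + h = 0) ∪ (PL y).biUnion (fun p =>
        (ball r).filter (fun n => n + h ≠ 0 ∧ (p : GaussianInt) ^ (K + 1) ∣ n + h))) := by
    intro n hn
    rw [Finset.mem_filter] at hn
    obtain ⟨hb, h, hh, hor⟩ := hn
    rw [Finset.mem_biUnion]
    refine ⟨h, hh, ?_⟩
    rw [Finset.mem_union]
    rcases hor with h0 | ⟨p, hp, h2⟩
    · exact Or.inl (Finset.mem_filter.2 ⟨hb, h0⟩)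
    · exact Or.inr (Finset.mem_biUnion.2 ⟨p, hp, Finset.mem_filter.2 ⟨hb, h2⟩⟩)
  have h2 : ∀ h ∈ S, (((ball r).filter (fun n => n + h = 0) ∪ (PL y).biUnion (fun p =>
        (ball r).filter (fun n => n + h ≠ 0 ∧ (p : GaussianInt) ^ (K + 1) ∣ n + h))).card : ℝ) ≤
        1 + ((PL y).card : ℝ) * (9 * (r + H) ^ 2 / 2 ^ (K + 1)) := by
    intro h hh
    have a1 : ((ball r).filter (fun n => n + h = 0)).card ≤ 1 := by
      refine Finset.card_le_one.2 fun a ha b hb => ?_
      rw [Finset.mem_filter] at ha hb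
      exact add_right_cancel (ha.2.trans hb.2.symm)
    have a2 : (((PL y).biUnion (fun p => (ball r).filter (fun n => n + h ≠ 0 ∧
        (p : GaussianInt) ^ (K + 1) ∣ n + h))).card : ℝ) ≤
        ((PL y).card : ℝ) * (9 * (r + H) ^ 2 / 2 ^ (K + 1)) := by
      calc (((PL y).biUnion (fun p => (ball r).filter (fun n => n + h ≠ 0 ∧
          (p : GaussianInt) ^ (K + 1) ∣ n + h))).card : ℝ) ≤
          ∑ p ∈ PL y, (((ball r).filter (fun n => n + h ≠ 0 ∧
            (p : GaussianInt) ^ (K + 1) ∣ n + h)).card : ℝ) := by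
            exact_mod_cast Finset.card_biUnion_le
        _ ≤ ∑ p ∈ PL y, 9 * (r + H) ^ 2 / 2 ^ (K + 1) := by
            refine Finset.sum_le_sum fun p _ => ?_
            have b1 := sp_shift h ((p : GaussianInt) ^ (K + 1)) (pow_ne_zero _ (P1_ne_zero p))
              (r := r) (hH h hh)
            refine b1.trans ?_
            rw [nm_pow]
            have b2 : (2 : ℝ) ≤ nm (p : GaussianInt) := two_le_nm_of_prime (P1_prime p)
            exact div_le_div_of_nonneg_left (by positivity) (by positivity)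
              (pow_le_pow_left₀ (by norm_num) b2 _)
        _ = _ := by rw [Finset.sum_const, nsmul_eq_mul]
    have a3 := Finset.card_union_le ((ball r).filter (fun n => n + h = 0))
      ((PL y).biUnion (fun p => (ball r).filter (fun n => n + h ≠ 0 ∧
        (p : GaussianInt) ^ (K + 1) ∣ n + h)))
    have a4 : (((ball r).filter (fun n => n + h = 0) ∪ (PL y).biUnion (fun p =>
        (ball r).filter (fun n => n + h ≠ 0 ∧ (p : GaussianInt) ^ (K + 1) ∣ n + h))).card : ℝ) ≤
        (((ball r).filter (fun n => n + h = 0)).card : ℝ) + (((PL y).biUnion (fun p =>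
        (ball r).filter (fun n => n + h ≠ 0 ∧ (p : GaussianInt) ^ (K + 1) ∣ n + h))).card : ℝ) := by
      exact_mod_cast a3
    have a5 : (((ball r).filter (fun n => n + h = 0)).card : ℝ) ≤ 1 := by exact_mod_cast a1
    linarith
  calc (((ball r).filter (fun n => ∃ h ∈ S, n + h = 0 ∨ ∃ p ∈ PL y,
      n + h ≠ 0 ∧ (p : GaussianInt) ^ (K + 1) ∣ n + h)).card : ℝ) ≤
      ((S.biUnion (fun h => (ball r).filter (fun n => n + h = 0) ∪ (PL y).biUnion (fun p =>
        (ball r).filter (fun n => n + h ≠ 0 ∧ (p : GaussianInt) ^ (K + 1) ∣ n + h)))).card : ℝ) := by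
        exact_mod_cast Finset.card_le_card h1
    _ ≤ ∑ h ∈ S, (((ball r).filter (fun n => n + h = 0) ∪ (PL y).biUnion (fun p =>
        (ball r).filter (fun n => n + h ≠ 0 ∧ (p : GaussianInt) ^ (K + 1) ∣ n + h))).card : ℝ) := by
        exact_mod_cast Finset.card_biUnion_le
    _ ≤ ∑ h ∈ S, (1 + ((PL y).card : ℝ) * (9 * (r + H) ^ 2 / 2 ^ (K + 1))) :=
        Finset.sum_le_sum h2
    _ = _ := by rw [Finset.sum_const, nsmul_eq_mul]

/-- the natural norm -/
private noncomputable def sp_N (p : P1) : ℕ := (Zsqrtd.norm (p : GaussianInt)).natAbs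

private theorem sp_N_eq (p : P1) : ((sp_N p : ℕ) : GaussianInt) = (p : GaussianInt) * star (p : GaussianInt) := by
  have h0 : 0 ≤ Zsqrtd.norm (p : GaussianInt) := GaussianInt.norm_nonneg _
  have h1 : ((sp_N p : ℕ) : ℤ) = Zsqrtd.norm (p : GaussianInt) := by
    unfold sp_N
    exact Int.natAbs_of_nonneg h0
  have h2 := Zsqrtd.norm_eq_mul_conj (p : GaussianInt)
  rw [← h2, ← h1]
  push_cast
  rfl

private theorem sp_N_pos (p : P1) : sp_N p ≠ 0 := by
  unfold sp_N
  rw [Int.natAbs_ne_zero]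
  exact (GaussianInt.norm_pos.2 (P1_ne_zero p)).ne'

open scoped Classical in
theorem small_per (E : Set P1) (S : Finset GaussianInt) (y : ℝ) {ε : ℝ} (hε : 0 < ε) :
    ∃ (Q : ℕ) (_ : NeZero Q) (c : GaussianInt → ℝ), Per Q c ∧ (∀ n, |c n| ≤ 1) ∧
      (∀ p : P1, (p : GaussianInt) ∣ (Q : GaussianInt) → nm (p : GaussianInt) ≤ y) ∧
      ∀ᶠ r : ℝ in atTop, (((ball r).filter (fun n =>
        c n ≠ ∏ h ∈ S, ∏ p ∈ (OD (n + h)).filter (fun p : P1 => nm (p : GaussianInt) ≤ y),
          xE E p)).card : ℝ) ≤ ε * r ^ 2 := by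
  -- the parameters
  set H : ℝ := ∑ h ∈ S, ‖GaussianInt.toComplex h‖ with hHdef
  have hH0 : 0 ≤ H := Finset.sum_nonneg fun _ _ => norm_nonneg _
  have hH : ∀ h ∈ S, ‖GaussianInt.toComplex h‖ ≤ H := fun h hh =>
    Finset.single_le_sum (f := fun h => ‖GaussianInt.toComplex h‖) (fun _ _ => norm_nonneg _) hh
  set A : ℝ := (S.card : ℝ) * (((PL y).card : ℝ) * 36) with hA
  have hA0 : 0 ≤ A := by positivity
  obtain ⟨K, hK⟩ := pow_unbounded_of_one_lt (2 * A / ε) (one_lt_two (α := ℝ))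
  have hK2 : A / 2 ^ (K + 1) ≤ ε / 2 := by
    rw [div_le_div_iff₀ (by positivity) (by norm_num)]
    rw [div_lt_iff₀ hε] at hK
    rw [pow_succ]
    have h1 : (0 : ℝ) < 2 ^ K := by positivity
    nlinarith
  set Q : ℕ := ∏ p ∈ PL y, sp_N p ^ (K + 1) with hQ
  have hQ0 : Q ≠ 0 := by
    rw [hQ]
    exact Finset.prod_ne_zero_iff.2 fun p _ => pow_ne_zero _ (sp_N_pos p)
  set c : GaussianInt → ℝ := fun n => ∏ h ∈ S, ∏ p ∈ PL y, xE E p ^ sp_v K p (n + h) with hc
  have hQc : (Q : GaussianInt) = ∏ p ∈ PL y, ((sp_N p : ℕ) : GaussianInt) ^ (K + 1) := by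
    rw [hQ]
    push_cast
    rfl
  refine ⟨Q, ⟨hQ0⟩, c, ?_, ?_, ?_, ?_⟩
  · intro a b
    rw [hc]
    simp only
    refine Finset.prod_congr rfl fun h _ => Finset.prod_congr rfl fun p hp => ?_
    congr 1
    refine sp_v_per fun j hj => ?_
    have h1 : (p : GaussianInt) ^ j ∣ (Q : GaussianInt) * b := by
      refine Dvd.dvd.mul_right ?_ b
      rw [hQc]
      refine dvd_trans ?_ (Finset.dvd_prod_of_mem _ hp)
      rw [sp_N_eq, mul_pow]
      exact Dvd.dvd.mul_right (pow_dvd_pow _ (by omega)) _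
    have h2 : a + (Q : GaussianInt) * b + h = (a + h) + (Q : GaussianInt) * b := by ring
    rw [h2]
    exact dvd_add_left h1
  · intro n
    rw [hc]
    simp only
    rw [Finset.abs_prod]
    refine Finset.prod_le_one (fun _ _ => abs_nonneg _) fun h _ => ?_
    rw [Finset.abs_prod]
    refine Finset.prod_le_one (fun _ _ => abs_nonneg _) fun p _ => ?_
    rw [abs_pow]
    rcases sp_xE E p with h1 | h1 <;> rw [h1] <;> simp
  · intro p' hp'
    rw [hQc, (P1_prime p').dvd_finsetProd_iff] at hp'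
    obtain ⟨p, hp, hd⟩ := hp'
    have h1 := (P1_prime p').dvd_of_dvd_pow hd
    rw [sp_N_eq] at h1
    have h2 := mem_PL.1 hp
    rcases (P1_prime p').dvd_or_dvd h1 with h3 | h3
    · exact (nm_le_of_dvd (P1_ne_zero p) h3).trans h2
    · have h4 : star (p : GaussianInt) ≠ 0 := by
        rw [Ne, star_eq_zero]
        exact P1_ne_zero p
      have h5 : nm (star (p : GaussianInt)) = nm (p : GaussianInt) := by
        unfold nm
        rw [Zsqrtd.norm_conj]
      exact (nm_le_of_dvd h4 h3).trans (h5.le.trans h2)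
  · have hev : ∀ᶠ r : ℝ in atTop, (S.card : ℝ) ≤ ε / 2 * r ^ 2 := by
      have h1 : Tendsto (fun r : ℝ => ε / 2 * r ^ 2) atTop atTop :=
        (tendsto_pow_atTop (by norm_num)).const_mul_atTop (by linarith)
      exact h1.eventually_ge_atTop _
    filter_upwards [hev, eventually_ge_atTop H, eventually_ge_atTop 0] with r hr1 hr2 hr3
    have h1 : (ball r).filter (fun n =>
        c n ≠ ∏ h ∈ S, ∏ p ∈ (OD (n + h)).filter (fun p : P1 => nm (p : GaussianInt) ≤ y),
          xE E p) ⊆ (ball r).filter (fun n => ∃ h ∈ S, n + h = 0 ∨ ∃ p ∈ PL y,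
      n + h ≠ 0 ∧ (p : GaussianInt) ^ (K + 1) ∣ n + h) := by
      intro n hn
      rw [Finset.mem_filter] at hn ⊢
      refine ⟨hn.1, ?_⟩
      by_contra hcon
      push Not at hcon
      apply hn.2
      rw [hc]
      simp only
      refine Finset.prod_congr rfl fun h hh => ?_
      obtain ⟨h2, h3⟩ := hcon h hh
      have h4 : (OD (n + h)).filter (fun p : P1 => nm (p : GaussianInt) ≤ y) =
          (PL y).filter (fun p : P1 => Odd (multiplicity (p : GaussianInt) (n + h))) := by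
        ext p
        rw [Finset.mem_filter, Finset.mem_filter, mem_OD, mem_PL]
        constructor
        · rintro ⟨⟨-, a⟩, b⟩
          exact ⟨b, a⟩
        · rintro ⟨b, a⟩
          exact ⟨⟨h2, a⟩, b⟩
      rw [h4, Finset.prod_filter]
      refine Finset.prod_congr rfl fun p hp => ?_
      rw [sp_v_eq h2 (h3 p hp h2)]
      exact pow_sign (sp_xE E p) _
    have h2 := sp_card S y K (r := r) hH
    have h3 : (((ball r).filter (fun n =>
        c n ≠ ∏ h ∈ S, ∏ p ∈ (OD (n + h)).filter (fun p : P1 => nm (p : GaussianInt) ≤ y),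
          xE E p)).card : ℝ) ≤ (((ball r).filter (fun n => ∃ h ∈ S, n + h = 0 ∨ ∃ p ∈ PL y,
      n + h ≠ 0 ∧ (p : GaussianInt) ^ (K + 1) ∣ n + h)).card : ℝ) := by
      exact_mod_cast Finset.card_le_card h1
    have h4 : (r + H) ^ 2 ≤ 4 * r ^ 2 := by
      have : (r + H) ^ 2 ≤ (2 * r) ^ 2 := pow_le_pow_left₀ (by linarith) (by linarith) 2
      linarith
    have h5 : (S.card : ℝ) * (1 + ((PL y).card : ℝ) * (9 * (r + H) ^ 2 / 2 ^ (K + 1))) ≤
        (S.card : ℝ) + A / 2 ^ (K + 1) * r ^ 2 := by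
      have h6 : (S.card : ℝ) * (1 + ((PL y).card : ℝ) * (9 * (r + H) ^ 2 / 2 ^ (K + 1))) ≤
          (S.card : ℝ) * (1 + ((PL y).card : ℝ) * (9 * (4 * r ^ 2) / 2 ^ (K + 1))) := by
        gcongr
      refine h6.trans (le_of_eq ?_)
      rw [hA]
      ring
    have h6 : A / 2 ^ (K + 1) * r ^ 2 ≤ ε / 2 * r ^ 2 :=
      mul_le_mul_of_nonneg_right hK2 (by positivity)
    linarith

end Pool.Agent.RSG
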