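import Pool.Agent.RSZ.Mid
import Pool.Agent.RSZ.SmallP
import Pool.Agent.RSZ.Large

set_option autoImplicit false

/-!
# Module NoCorrE: no correlations for `sE E`

`fac`: if all `n + h ≠ 0`, `c n` is the small product, no `p` with `y < nm p` has `p^2 ∣ n + h`, and no `p ∈ E` with
`r^(1/32) < nm p` divides an `n + h`, then `gS (sE E) S n = c n * ∏_{p ∈ EP E y (r^(1/32))} (1 - 2 xh S n p)`:
split `OD (n + h)` at `nm p ≤ y`; the rest is `∏_h ∏_{p ∈ EP, p ∣ n + h} (-1)`, each `p ∈ EP` divides at most one `n + h` (`Ok`), and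
then `p ∈ OD (n + h)` (`mem_OD_of_dvd`).
`noCorr_E`: for `ε` choose `y` (squares: `card_sq` for each `h`, `y` large; `Ok` for `1`), `Q, c` from `small_per`, all primes with
`y < nm p` are `Ok S Q p`; add the exceptional sets (`large_few`, `small_per`, `card_sq`, the `#S` points `n = -h`), each term
changes by at most `2`, and `mid`.
-/

open Filter Topology MeasureTheory ProbabilityTheory

namespace Pool.Agent.RSG

open Pool.Agent.GaussPret Pool.Agent.MRG

private theorem xE_val (E : Set P1) (p : P1) : xE E p = 1 ∨ xE E p = -1 := by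
  unfold xE
  split_ifs
  · exact Or.inr rfl
  · exact Or.inl rfl

private theorem prod_pm {ι : Type*} (T : Finset ι) (x : ι → ℝ) (hx : ∀ i ∈ T, x i = 1 ∨ x i = -1) :
    ∏ i ∈ T, x i = 1 ∨ ∏ i ∈ T, x i = -1 := by
  refine Finset.prod_induction x (fun a => a = 1 ∨ a = -1) ?_ (Or.inl rfl) hx
  rintro a b (rfl | rfl) (rfl | rfl)
  · left; norm_num
  · right; norm_num
  · right; norm_num
  · left; norm_num

private theorem pm_abs {a : ℝ} (h : a = 1 ∨ a = -1) : |a| = 1 := by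
  rcases h with rfl | rfl
  · exact abs_one
  · rw [abs_neg, abs_one]

theorem sE_val (E : Set P1) (n : GaussianInt) : sE E n = 1 ∨ sE E n = -1 :=
  prod_pm _ _ fun p _ => xE_val E p

theorem exists_y (S : Finset GaussianInt) (y₀ : ℝ) : ∃ y : ℝ, y₀ ≤ y ∧ 1 ≤ y ∧
    ∀ p : P1, y < nm (p : GaussianInt) →
      (∀ h ∈ S, ∀ h' ∈ S, h ≠ h' → ¬ (p : GaussianInt) ∣ h - h') ∧
      2 * (S.card : ℝ) ≤ nm (p : GaussianInt) := by
  obtain ⟨A, hA⟩ : ∃ A : ℝ, A = ∑ x ∈ S ×ˢ S, nm (x.1 - x.2) := ⟨_, rfl⟩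
  have hA0 : 0 ≤ A := by
    rw [hA]
    exact Finset.sum_nonneg fun x _ => nm_nonneg _
  have hS0 : (0 : ℝ) ≤ S.card := Nat.cast_nonneg _
  have hy0 := abs_nonneg y₀
  refine ⟨|y₀| + 1 + A + 2 * (S.card : ℝ), ?_, ?_, fun p hp => ⟨?_, ?_⟩⟩
  · have := le_abs_self y₀
    linarith
  · linarith
  · intro h hh h' hh' hne hd
    have h1 := nm_le_of_dvd (sub_ne_zero.2 hne) hd
    have h2 : nm (h - h') ≤ A := by
      rw [hA]
      exact Finset.single_le_sum (f := fun x : GaussianInt × GaussianInt => nm (x.1 - x.2))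
        (fun x _ => nm_nonneg _) (Finset.mk_mem_product hh hh')
    linarith
  · linarith

open scoped Classical in
private theorem fac_one (E : Set P1) {y v : ℝ} {m : GaussianInt} (h0 : m ≠ 0)
    (hsq : ∀ p : P1, y < nm (p : GaussianInt) → ¬ (p : GaussianInt) ^ 2 ∣ m)
    (hlarge : ∀ p : P1, p ∈ E → v < nm (p : GaussianInt) → ¬ (p : GaussianInt) ∣ m) :
    ∏ p ∈ (OD m).filter (fun p : P1 => ¬ nm (p : GaussianInt) ≤ y), xE E p =
      ∏ p ∈ EP E y v, if (p : GaussianInt) ∣ m then (-1 : ℝ) else 1 := by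
  have h1 : ∏ p ∈ (OD m).filter (fun p : P1 => ¬ nm (p : GaussianInt) ≤ y), xE E p =
      ∏ p ∈ ((OD m).filter (fun p : P1 => ¬ nm (p : GaussianInt) ≤ y)).filter (fun p => p ∈ E),
        (-1 : ℝ) := by
    rw [Finset.prod_filter (fun p => p ∈ E)]
    rfl
  rw [h1, ← Finset.prod_filter]
  refine Finset.prod_congr ?_ fun _ _ => rfl
  ext p
  rw [Finset.mem_filter, Finset.mem_filter, Finset.mem_filter, mem_EP]
  constructor
  · rintro ⟨⟨h2, h3⟩, h4⟩
    have h5 := (dvd_of_mem_OD h2).2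
    refine ⟨⟨h4, not_le.1 h3, ?_⟩, h5⟩
    by_contra h6
    exact hlarge p h4 (not_le.1 h6) h5
  · rintro ⟨⟨h2, h3, _⟩, h5⟩
    exact ⟨⟨mem_OD_of_dvd h0 h5 (hsq p h3), not_le.2 h3⟩, h2⟩

open scoped Classical in
private theorem fac_two {S : Finset GaussianInt} {n : GaussianInt} {p : P1}
    (hS : ∀ h ∈ S, ∀ h' ∈ S, h ≠ h' → ¬ (p : GaussianInt) ∣ h - h') :
    (∏ h ∈ S, if (p : GaussianInt) ∣ n + h then (-1 : ℝ) else 1) = 1 - 2 * xh S n p := by
  by_cases hp : ht S n p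
  · rw [xh, if_pos hp]
    obtain ⟨h₀, hh₀, hd⟩ := id hp
    rw [Finset.prod_eq_single h₀, if_pos hd]
    · norm_num
    · intro h hh hne
      rw [if_neg]
      intro hd'
      have h1 := dvd_sub hd' hd
      rw [add_sub_add_left_eq_sub] at h1
      exact hS h hh h₀ hh₀ hne h1
    · intro h
      exact absurd hh₀ h
  · rw [xh, if_neg hp]
    rw [Finset.prod_eq_one]
    · norm_num
    · intro h hh
      rw [if_neg]
      intro hd
      exact hp ⟨h, hh, hd⟩

open scoped Classical in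
theorem fac (E : Set P1) (S : Finset GaussianInt) {y v : ℝ} {n : GaussianInt} {c : ℝ}
    (h0 : ∀ h ∈ S, n + h ≠ 0)
    (hS : ∀ p : P1, y < nm (p : GaussianInt) → ∀ h ∈ S, ∀ h' ∈ S, h ≠ h' →
      ¬ (p : GaussianInt) ∣ h - h')
    (hc : c = ∏ h ∈ S, ∏ p ∈ (OD (n + h)).filter (fun p : P1 => nm (p : GaussianInt) ≤ y), xE E p)
    (hsq : ∀ h ∈ S, ∀ p : P1, y < nm (p : GaussianInt) → ¬ (p : GaussianInt) ^ 2 ∣ n + h)
    (hlarge : ∀ h ∈ S, ∀ p : P1, p ∈ E → v < nm (p : GaussianInt) → ¬ (p : GaussianInt) ∣ n + h) :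
    gS (sE E) S n = c * ∏ p ∈ EP E y v, (1 - 2 * xh S n p) := by
  have h1 : gS (sE E) S n = c * ∏ h ∈ S, ∏ p ∈ EP E y v,
      (if (p : GaussianInt) ∣ n + h then (-1 : ℝ) else 1) := by
    rw [hc, ← Finset.prod_mul_distrib]
    unfold gS sE
    refine Finset.prod_congr rfl fun h hh => ?_
    rw [← fac_one E (h0 h hh) (hsq h hh) (hlarge h hh)]
    exact (Finset.prod_filter_mul_prod_filter_not (OD (n + h)) _ _).symm
  rw [h1, Finset.prod_comm]
  congr 1
  refine Finset.prod_congr rfl fun p hp => ?_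
  exact fac_two (hS p (mem_EP.1 hp).2.1)

open scoped Classical in
/-- few `n` are divisible by a square after a shift -/
private theorem sq_few (S : Finset GaussianInt) : ∃ C : ℝ, 0 < C ∧ ∀ r y : ℝ, 1 ≤ r → 1 ≤ y →
    (((ball r).filter (fun n : GaussianInt => ∃ h ∈ S, ∃ p : P1, y < nm (p : GaussianInt) ∧
      n + h ≠ 0 ∧ (p : GaussianInt) ^ 2 ∣ n + h)).card : ℝ) ≤ C * r ^ 2 / y := by
  choose C hC0 hC using card_sq
  refine ⟨∑ h ∈ S, C h + 1, ?_, fun r y hr hy => ?_⟩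
  · have := Finset.sum_nonneg fun h (_ : h ∈ S) => (hC0 h).le
    linarith
  have hsub : ((ball r).filter (fun n : GaussianInt => ∃ h ∈ S, ∃ p : P1,
      y < nm (p : GaussianInt) ∧ n + h ≠ 0 ∧ (p : GaussianInt) ^ 2 ∣ n + h)) ⊆
      S.biUnion fun h => (ball r).filter (fun n : GaussianInt => ∃ p : P1,
        y < nm (p : GaussianInt) ∧ n + h ≠ 0 ∧ (p : GaussianInt) ^ 2 ∣ n + h) := by
    intro n hn
    obtain ⟨h1, h, hh, h2⟩ := Finset.mem_filter.1 hn
    exact Finset.mem_biUnion.2 ⟨h, hh, Finset.mem_filter.2 ⟨h1, h2⟩⟩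
  have hcard : (((ball r).filter (fun n : GaussianInt => ∃ h ∈ S, ∃ p : P1,
      y < nm (p : GaussianInt) ∧ n + h ≠ 0 ∧ (p : GaussianInt) ^ 2 ∣ n + h)).card : ℝ) ≤
      ∑ h ∈ S, (((ball r).filter (fun n : GaussianInt => ∃ p : P1,
        y < nm (p : GaussianInt) ∧ n + h ≠ 0 ∧ (p : GaussianInt) ^ 2 ∣ n + h)).card : ℝ) := by
    exact_mod_cast (Finset.card_le_card hsub).trans Finset.card_biUnion_le
  refine hcard.trans ((Finset.sum_le_sum fun h _ => hC h r y hr hy).trans ?_)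
  rw [← Finset.sum_div, ← Finset.sum_mul]
  have hy0 : 0 < y := by linarith
  gcongr
  linarith

private theorem xh_abs (S : Finset GaussianInt) (n : GaussianInt) (p : P1) :
    |1 - 2 * xh S n p| = 1 := by
  unfold xh
  split_ifs
  · norm_num
  · norm_num

open scoped Classical in
/-- few `n` vanish after a shift -/
private theorem zero_few (S : Finset GaussianInt) (r : ℝ) :
    ((ball r).filter (fun n : GaussianInt => ∃ h ∈ S, n + h = 0)).card ≤ S.card := by
  refine Finset.card_le_card_of_injOn (fun n => -n) ?_ ?_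
  · intro n hn
    obtain ⟨_, h, hh, h2⟩ := Finset.mem_filter.1 hn
    show -n ∈ S
    rw [neg_eq_of_add_eq_zero_right h2]
    exact hh
  · intro a _ b _ hab
    exact neg_injective hab

open scoped Classical in
private theorem sum_close (A X : Finset GaussianInt) (f g : GaussianInt → ℝ) (hf : ∀ n, |f n| ≤ 1)
    (hg : ∀ n, |g n| ≤ 1) (h : ∀ n ∈ A, n ∉ X → f n = g n) :
    |∑ n ∈ A, f n| ≤ |∑ n ∈ A, g n| + 2 * (X.card : ℝ) := by
  have h1 : ∑ n ∈ A, f n = ∑ n ∈ A, g n + ∑ n ∈ A, (f n - g n) := by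
    rw [← Finset.sum_add_distrib]
    refine Finset.sum_congr rfl fun n _ => ?_
    ring
  have h2 : |∑ n ∈ A, (f n - g n)| ≤ 2 * (X.card : ℝ) := by
    refine (Finset.abs_sum_le_sum_abs _ _).trans ?_
    have h3 : ∀ n ∈ A, |f n - g n| ≤ if n ∈ X then (2 : ℝ) else 0 := by
      intro n hn
      split_ifs with hX
      · have h4 := hf n
        have h5 := hg n
        have h6 := abs_sub (f n) (g n)
        linarith
      · rw [h n hn hX, sub_self, abs_zero]
    refine (Finset.sum_le_sum h3).trans ?_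
    rw [← Finset.sum_filter, Finset.sum_const, nsmul_eq_mul, mul_comm]
    refine mul_le_mul_of_nonneg_left ?_ (by norm_num)
    have h7 : A.filter (fun n => n ∈ X) ⊆ X := fun n hn => (Finset.mem_filter.1 hn).2
    exact_mod_cast Finset.card_le_card h7
  rw [h1]
  exact (abs_add_le _ _).trans (by linarith)

theorem noCorr_E {E : Set P1} (h1 : Tendsto (fun t : ℝ => TE E 0 t) atTop atTop)
    (h2 : Tendsto (fun t : ℝ => TE E (Real.sqrt t) t) atTop (𝓝 0)) : NoCorr (sE E) := by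
  classical
  intro S hS
  obtain ⟨C, hC0, hC⟩ := sq_few S
  rw [Metric.tendsto_nhds]
  intro ε hε
  obtain ⟨δ, hδ⟩ : ∃ δ : ℝ, δ = ε / 10 := ⟨_, rfl⟩
  have hδ0 : 0 < δ := by
    rw [hδ]
    positivity
  obtain ⟨y, hy0, hy1, hy⟩ := exists_y S (C / δ)
  have hyp : 0 < y := by linarith
  obtain ⟨Q, hQ, c, hper, hc1, hQp, hsm⟩ := small_per E S y hδ0
  have hok : ∀ p : P1, y < nm (p : GaussianInt) → Ok S (Q : GaussianInt) p := by
    intro p hp
    refine ⟨fun hd => ?_, (hy p hp).1, (hy p hp).2⟩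
    exact absurd (hQp p hd) (not_le.2 hp)
  have hmid := mid h1 h2 hS hy1 hper hc1 hok hδ0
  have hlarge := large_few h2 S hδ0
  have hzero : ∀ᶠ r : ℝ in atTop, (S.card : ℝ) ≤ δ * r ^ 2 :=
    ((tendsto_pow_atTop two_ne_zero).const_mul_atTop hδ0).eventually_ge_atTop _
  filter_upwards [hmid, hlarge, hsm, hzero, eventually_ge_atTop 1] with r hr1 hr2 hr3 hr4 hr5
  have hr0 : 0 < r := by linarith
  have hsq := hC r y hr5 hy1
  have hsq' : C * r ^ 2 / y ≤ δ * r ^ 2 := by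
    rw [div_le_iff₀ hyp]
    have h3 : C ≤ δ * y := by
      rw [div_le_iff₀ hδ0] at hy0
      linarith
    have h4 : 0 ≤ r ^ 2 := by positivity
    nlinarith
  have hz : (((ball r).filter (fun n : GaussianInt => ∃ h ∈ S, n + h = 0)).card : ℝ) ≤ S.card := by
    exact_mod_cast zero_few S r
  obtain ⟨X1, hX1⟩ : ∃ X : Finset GaussianInt, X = (ball r).filter (fun n =>
        c n ≠ ∏ h ∈ S, ∏ p ∈ (OD (n + h)).filter (fun p : P1 => nm (p : GaussianInt) ≤ y),
          xE E p) := ⟨_, rfl⟩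
  obtain ⟨X2, hX2⟩ : ∃ X : Finset GaussianInt, X = (ball r).filter (fun n => ∃ h ∈ S, ∃ p : P1,
      p ∈ E ∧ r ^ (1 / 32 : ℝ) < nm (p : GaussianInt) ∧ n + h ≠ 0 ∧
      (p : GaussianInt) ∣ n + h) := ⟨_, rfl⟩
  obtain ⟨X3, hX3⟩ : ∃ X : Finset GaussianInt, X = (ball r).filter (fun n : GaussianInt =>
      ∃ h ∈ S, ∃ p : P1, y < nm (p : GaussianInt) ∧
      n + h ≠ 0 ∧ (p : GaussianInt) ^ 2 ∣ n + h) := ⟨_, rfl⟩
  obtain ⟨X4, hX4⟩ : ∃ X : Finset GaussianInt, X = (ball r).filter (fun n : GaussianInt =>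
      ∃ h ∈ S, n + h = 0) := ⟨_, rfl⟩
  rw [← hX1] at hr3
  rw [← hX2] at hr2
  rw [← hX3] at hsq
  rw [← hX4] at hz
  have hcl := sum_close (ball r) (X1 ∪ X2 ∪ X3 ∪ X4) (fun n => gS (sE E) S n)
    (fun n => c n * ∏ p ∈ EP E y (r ^ (1 / 32 : ℝ)), (1 - 2 * xh S n p))
    (fun n => (pm_abs (prod_pm S _ fun h _ => sE_val E (n + h))).le)
    (fun n => by
      rw [abs_mul, Finset.abs_prod, Finset.prod_congr rfl fun p _ => xh_abs S n p,
        Finset.prod_const_one, mul_one]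
      exact hc1 n)
    (fun n hn hX => by
      simp only [Finset.mem_union, not_or] at hX
      obtain ⟨⟨⟨hn1, hn2⟩, hn3⟩, hn4⟩ := hX
      have h0 : ∀ h ∈ S, n + h ≠ 0 := by
        intro h hh h3
        apply hn4
        rw [hX4]
        exact Finset.mem_filter.2 ⟨hn, h, hh, h3⟩
      refine fac E S h0 (fun p hp => (hy p hp).1) ?_ ?_ ?_
      · by_contra h3
        apply hn1
        rw [hX1]
        exact Finset.mem_filter.2 ⟨hn, h3⟩
      · intro h hh p hp hd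
        apply hn3
        rw [hX3]
        exact Finset.mem_filter.2 ⟨hn, h, hh, p, hp, h0 h hh, hd⟩
      · intro h hh p hpE hp hd
        apply hn2
        rw [hX2]
        exact Finset.mem_filter.2 ⟨hn, h, hh, p, hpE, hp, h0 h hh, hd⟩)
  have hcard : ((X1 ∪ X2 ∪ X3 ∪ X4).card : ℝ) ≤ X1.card + X2.card + X3.card + X4.card := by
    have h3 := Finset.card_union_le (X1 ∪ X2 ∪ X3) X4
    have h4 := Finset.card_union_le (X1 ∪ X2) X3
    have h5 := Finset.card_union_le X1 X2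
    have h6 : (X1 ∪ X2 ∪ X3 ∪ X4).card ≤ X1.card + X2.card + X3.card + X4.card := by omega
    exact_mod_cast h6
  have hfin : |∑ n ∈ ball r, gS (sE E) S n| ≤ 9 * δ * r ^ 2 := by
    refine hcl.trans ?_
    nlinarith
  rw [Real.dist_eq, sub_zero, abs_div, abs_of_pos (pow_pos hr0 2), div_lt_iff₀ (pow_pos hr0 2)]
  refine hfin.trans_lt ?_
  rw [hδ]
  have h3 : 0 < r ^ 2 := pow_pos hr0 2
  nlinarith

end Pool.Agent.RSG
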