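import Pool.Agent.RSZ.Defs

set_option autoImplicit false

/-!
# Module Res: residue classes in discs

`card_res`: choose the representative `b'` of the class of `b` with `ab b' ≤ ab D` (`b % D`, `EuclideanDomain`); `n = b' + D m`;
`ab n ≤ r` implies `ab m ≤ r/ab D + 1`, and `ab m ≤ r/ab D - 1` implies `ab n ≤ r`.  So the number is between
`#ball (r/|D| - 1)` and `#ball (r/|D| + 1) + 1` (up to the points `n = 0`, `m = 0`), and `card_ball_asymp` (MRG/Thin):
`|#ball ρ - π ρ^2| ≤ K (ρ + 1)`.  Here `1 ≤ ab D ≤ r`, so all errors are `O(r)`.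
`crt`: induction on `d`: `q * ∏` and the new prime `p` are coprime (`¬ p ∣ q`, different primes of `P1`: `P1_eq_of_dvd`), Bezout.
-/

open Filter Topology MeasureTheory ProbabilityTheory

namespace Pool.Agent.RSG

open Pool.Agent.GaussPret Pool.Agent.MRG

private theorem res_add (x y : GaussianInt) : ab (x + y) ≤ ab x + ab y := by
  unfold ab
  rw [map_add]
  exact norm_add_le _ _

private theorem res_sub (x y : GaussianInt) : ab (x - y) ≤ ab x + ab y := by
  unfold ab
  rw [map_sub]
  exact norm_sub_le _ _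

open scoped Classical in
theorem card_res : ∃ K : ℝ, 0 < K ∧ ∀ (D b : GaussianInt) (r : ℝ), D ≠ 0 → nm D ≤ r ^ 2 → 1 ≤ r →
    |(((ball r).filter (fun n => D ∣ n - b)).card : ℝ) - Real.pi * r ^ 2 / nm D| ≤ K * r := by
  refine ⟨40, by norm_num, ?_⟩
  intro D b r hD hDr hr
  have hpi := Real.pi_pos
  have hpi4 := Real.pi_le_four
  obtain ⟨d, hd⟩ : ∃ d : ℝ, d = ab D := ⟨_, rfl⟩
  have hd1 : 1 ≤ d := by rw [hd]; exact one_le_ab hD
  have hd0 : 0 < d := by linarith
  have hnd : nm D = d ^ 2 := by rw [hd]; exact nm_eq_ab D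
  have hdr : d ≤ r := by
    rw [hnd] at hDr
    nlinarith
  obtain ⟨b', hb'⟩ : ∃ b' : GaussianInt, b' = b % D := ⟨_, rfl⟩
  have hbb : D ∣ b - b' := by
    rw [hb']
    exact ⟨b / D, by rw [sub_eq_iff_eq_add]; exact (EuclideanDomain.div_add_mod b D).symm⟩
  have hab : ab b' ≤ d := by
    have h1 : Zsqrtd.norm b' < Zsqrtd.norm D := by
      rw [hb']
      exact GaussianInt.norm_mod_lt b hD
    have h2 : nm b' ≤ nm D := by
      unfold nm
      exact_mod_cast h1.le
    rw [hnd, nm_eq_ab] at h2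
    exact abs_le_of_sq_le_sq' h2 hd0.le |>.2
  have hmem : ∀ n : GaussianInt, D ∣ n - b ↔ D ∣ n - b' := by
    intro n
    have h1 : n - b = (n - b') - (b - b') := by ring
    rw [h1]
    exact dvd_sub_left hbb
  have hrd : r / d ≤ r := div_le_self (by linarith) hd1
  have hrd1 : 1 ≤ r / d := by rw [le_div_iff₀ hd0]; linarith
  have hval : Real.pi * r ^ 2 / nm D = Real.pi * (r / d) ^ 2 := by
    rw [hnd, div_pow]
    ring
  rw [hval]
  obtain ⟨ρ, hρ⟩ : ∃ ρ : ℝ, ρ = r / d := ⟨_, rfl⟩
  rw [← hρ] at hrd hrd1 ⊢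
  have hdρ : d * ρ = r := by rw [hρ]; field_simp
  obtain ⟨T, hT⟩ : ∃ T : Finset GaussianInt, T = (ball r).filter (fun n => D ∣ n - b) := ⟨_, rfl⟩
  rw [← hT]
  have hmT : ∀ n, n ∈ T ↔ (n ≠ 0 ∧ ab n ≤ r) ∧ D ∣ n - b' := by
    intro n
    rw [hT, Finset.mem_filter, mem_ball', hmem]
  -- the upper bound
  have hup : (T.card : ℝ) ≤ Real.pi * (ρ + 1 + 1) ^ 2 := by
    have h1 : T.card ≤ (ThinAux.S (ρ + 1)).card := by
      refine Finset.card_le_card_of_injOn (fun n => (n - b') / D) ?_ ?_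
      · intro n hn
        have hn' := (hmT n).1 hn
        obtain ⟨m, hm⟩ := hn'.2
        have h2 : (n - b') / D = m := by
          rw [hm]
          exact mul_div_cancel_left₀ m hD
        show (n - b') / D ∈ (ThinAux.S (ρ + 1) : Set GaussianInt)
        rw [h2, Finset.mem_coe, ThinAux.mem_S (by linarith)]
        have h3 : d * ab m ≤ d * (ρ + 1) := by
          have h4 : d * ab m = ab (n - b') := by rw [hm, ab_mul, hd]
          rw [h4]
          have := res_sub n b'
          nlinarith [hn'.1.2]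
        exact le_of_mul_le_mul_left h3 hd0
      · intro n hn n' hn' he
        have h5 := (hmT n).1 hn
        have h6 := (hmT n').1 hn'
        obtain ⟨m, hm⟩ := h5.2
        obtain ⟨m', hm'⟩ := h6.2
        have he' : (n - b') / D = (n' - b') / D := he
        rw [hm, hm', mul_div_cancel_left₀ m hD, mul_div_cancel_left₀ m' hD] at he'
        have h7 : n - b' = n' - b' := by rw [hm, hm', he']
        exact sub_left_injective h7
    have h2 : ((ThinAux.S (ρ + 1)).card : ℝ) ≤ Real.pi * (ρ + 1 + 1) ^ 2 := by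
      rw [ThinAux.card_S]
      push_cast
      exact ThinAux.up (ρ + 1) (by linarith)
    exact le_trans (by exact_mod_cast h1) h2
  -- the lower bound
  have hlo : 2 ≤ ρ → Real.pi * (ρ - 1 - 1) ^ 2 ≤ (T.card : ℝ) + 1 := by
    intro h2ρ
    have h1 : (ThinAux.S (ρ - 1)).card ≤ (insert 0 T).card := by
      refine Finset.card_le_card_of_injOn (fun m => b' + D * m) ?_ ?_
      · intro m hm
        have hm' : ab m ≤ ρ - 1 := (ThinAux.mem_S (by linarith)).1 hm
        show b' + D * m ∈ ((insert 0 T : Finset GaussianInt) : Set GaussianInt)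
        rw [Finset.mem_coe, Finset.mem_insert]
        by_cases h0 : b' + D * m = 0
        · exact Or.inl h0
        · refine Or.inr ((hmT _).2 ⟨⟨h0, ?_⟩, ⟨m, by ring⟩⟩)
          have h3 := res_add b' (D * m)
          rw [ab_mul, ← hd] at h3
          have h4 : d * ab m ≤ d * (ρ - 1) := mul_le_mul_of_nonneg_left hm' hd0.le
          nlinarith
      · intro m hm m' hm' he
        have he' : b' + D * m = b' + D * m' := he
        exact mul_left_cancel₀ hD (add_left_cancel he')
    have h2 : Real.pi * (ρ - 1 - 1) ^ 2 ≤ ((ThinAux.S (ρ - 1)).card : ℝ) := by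
      rw [ThinAux.card_S]
      push_cast
      exact ThinAux.lo (ρ - 1) (by linarith)
    have h3 : (insert 0 T).card ≤ T.card + 1 := Finset.card_insert_le _ _
    have h4 : ((ThinAux.S (ρ - 1)).card : ℝ) ≤ (T.card : ℝ) + 1 := by
      exact_mod_cast le_trans h1 h3
    linarith
  have hT0 : (0 : ℝ) ≤ T.card := Nat.cast_nonneg _
  have hpr : Real.pi * ρ ≤ 4 * r := by nlinarith
  rw [abs_le]
  constructor
  · by_cases h2ρ : 2 ≤ ρ
    · have := hlo h2ρ
      nlinarith
    · push Not at h2ρ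
      nlinarith [mul_le_mul_of_nonneg_left h2ρ.le (by positivity : 0 ≤ Real.pi * ρ)]
  · nlinarith

theorem crt (q a : GaussianInt) (hq : q ≠ 0) (d : Finset P1)
    (hd : ∀ p ∈ d, ¬ (p : GaussianInt) ∣ q) (σ : P1 → GaussianInt) :
    ∃ b : GaussianInt, ∀ n : GaussianInt, (q ∣ n - a ∧ ∀ p ∈ d, (p : GaussianInt) ∣ n + σ p) ↔
      q * ∏ p ∈ d, (p : GaussianInt) ∣ n - b := by
  classical
  induction d using Finset.induction_on with
  | empty => exact ⟨a, fun n => by simp⟩
  | insert p0 d hp0 ih =>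
    obtain ⟨b, hb⟩ := ih (fun p hp => hd p (Finset.mem_insert_of_mem hp))
    obtain ⟨Q, hQ⟩ : ∃ Q : GaussianInt, Q = q * ∏ p ∈ d, (p : GaussianInt) := ⟨_, rfl⟩
    have hnd : ¬ (p0 : GaussianInt) ∣ Q := by
      intro h
      rw [hQ] at h
      rcases (P1_prime p0).dvd_or_dvd h with h1 | h1
      · exact hd p0 (Finset.mem_insert_self _ _) h1
      · obtain ⟨p, hp, h2⟩ := (P1_prime p0).exists_mem_finset_dvd h1
        exact hp0 (by rw [P1_eq_of_dvd h2]; exact hp)
    have hcop : IsCoprime (p0 : GaussianInt) Q :=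
      ((P1_prime p0).irreducible.coprime_iff_not_dvd).2 hnd
    obtain ⟨u, v, huv⟩ := hcop
    refine ⟨b * (u * p0) + (-σ p0) * (v * Q), fun n => ?_⟩
    have hprod : q * ∏ p ∈ insert p0 d, (p : GaussianInt) = Q * p0 := by
      rw [Finset.prod_insert hp0, hQ]
      ring
    rw [hprod]
    have h1 : (q ∣ n - a ∧ ∀ p ∈ insert p0 d, (p : GaussianInt) ∣ n + σ p) ↔
        (Q ∣ n - b ∧ (p0 : GaussianInt) ∣ n + σ p0) := by
      rw [hQ, ← hb n]
      constructor
      · rintro ⟨h2, h3⟩
        exact ⟨⟨h2, fun p hp => h3 p (Finset.mem_insert_of_mem hp)⟩,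
          h3 p0 (Finset.mem_insert_self _ _)⟩
      · rintro ⟨⟨h2, h3⟩, h4⟩
        refine ⟨h2, fun p hp => ?_⟩
        rcases Finset.mem_insert.1 hp with h5 | h5
        · rw [h5]; exact h4
        · exact h3 p h5
    rw [h1]
    have e1 : n - (b * (u * p0) + (-σ p0) * (v * Q)) = (n - b) + (b + σ p0) * v * Q := by
      linear_combination (-b) * huv
    have e2 : n - (b * (u * p0) + (-σ p0) * (v * Q)) = (n + σ p0) - (b + σ p0) * u * p0 := by
      linear_combination (σ p0) * huv
    constructor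
    · rintro ⟨h2, h3⟩
      refine IsCoprime.mul_dvd ⟨v, u, by rw [add_comm]; exact huv⟩ ?_ ?_
      · rw [e1]
        exact dvd_add h2 (Dvd.intro_left _ rfl)
      · rw [e2]
        exact dvd_sub h3 (Dvd.intro_left _ rfl)
    · intro h2
      constructor
      · have h3 : Q ∣ n - (b * (u * p0) + (-σ p0) * (v * Q)) :=
          dvd_trans (Dvd.intro _ rfl) h2
        rw [e1] at h3
        exact (dvd_add_left (Dvd.intro_left _ rfl)).1 h3
      · have h3 : (p0 : GaussianInt) ∣ n - (b * (u * p0) + (-σ p0) * (v * Q)) :=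
          dvd_trans (Dvd.intro_left _ rfl) h2
        rw [e2] at h3
        exact (dvd_sub_left (Dvd.intro_left _ rfl)).1 h3

end Pool.Agent.RSG
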