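import Pool.Agent.RSZ.Defs
import Pool.Agent.MRG.Mert

set_option autoImplicit false

/-!
# Module TEL: sums of `1/nm p` over `E`

* `TE_add`: splitting; `TE_mono`; `TE_nonneg`.
* `TE_le_log`: Mertens (`mertens2` in MRG/Mert: `pr (e^a) (e^b)` are the first-quadrant primes with `e^a < |p| ≤ e^b`,
  `Ls` the sum of `1/|p|^2 = 1/nm p`): `TE E 0 t ≤ C + log log t` for `t ≥ 3`.  (Or from `h2` only.)
* `TE_pow`: if `TE E √t t → 0` then `TE E (r^α) (r^β) → 0` for `0 < α ≤ β`: finitely many steps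
  `(r^(β/2^(i+1)), r^(β/2^i)]`, until `β/2^i ≤ α`.
-/

open Filter Topology MeasureTheory ProbabilityTheory

namespace Pool.Agent.RSG

open Pool.Agent.GaussPret Pool.Agent.MRG

theorem TE_nonneg (E : Set P1) (a b : ℝ) : 0 ≤ TE E a b :=
  Finset.sum_nonneg fun p _ => one_div_nonneg.2 (nm_nonneg (p : GaussianInt))

theorem TE_add (E : Set P1) {a b c : ℝ} (hab : a ≤ b) (hbc : b ≤ c) :
    TE E a c = TE E a b + TE E b c := by
  classical
  have hd : Disjoint (EP E a b) (EP E b c) := by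
    rw [Finset.disjoint_left]
    intro p hp hq
    rw [mem_EP] at hp hq
    exact absurd hp.2.2 (not_le.2 hq.2.1)
  have hu : EP E a c = (EP E a b).disjUnion (EP E b c) hd := by
    ext p
    rw [Finset.mem_disjUnion, mem_EP, mem_EP, mem_EP]
    constructor
    · rintro ⟨h1, h2, h3⟩
      rcases le_or_gt (nm (p : GaussianInt)) b with h | h
      · exact Or.inl ⟨h1, h2, h⟩
      · exact Or.inr ⟨h1, h, h3⟩
    · rintro (⟨h1, h2, h3⟩ | ⟨h1, h2, h3⟩)
      · exact ⟨h1, h2, h3.trans hbc⟩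
      · exact ⟨h1, hab.trans_lt h2, h3⟩
  unfold TE
  rw [hu, Finset.sum_disjUnion]

theorem TE_mono (E : Set P1) {a a' b b' : ℝ} (ha : a' ≤ a) (hb : b ≤ b') :
    TE E a b ≤ TE E a' b' := by
  unfold TE
  refine Finset.sum_le_sum_of_subset_of_nonneg ?_
    (fun p _ _ => one_div_nonneg.2 (nm_nonneg (p : GaussianInt)))
  intro p hp
  rw [mem_EP] at hp ⊢
  exact ⟨hp.1, ha.trans_lt hp.2.1, hp.2.2.trans hb⟩

theorem TE_le_log : ∃ C : ℝ, 0 < C ∧ ∀ (E : Set P1) (t : ℝ), 3 ≤ t →
    TE E 0 t ≤ C + Real.log (Real.log t) := by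
  classical
  obtain ⟨C, hC, h⟩ := mert_le
  refine ⟨C, hC, fun E t ht => ?_⟩
  set u : ℝ := max 1 (Real.log t / 2) with hu
  have hu1 : 1 ≤ u := le_max_left _ _
  have hut : Real.log t ≤ 2 * u := by
    have := le_max_right 1 (Real.log t / 2)
    linarith
  have ht0 : 0 < t := by linarith
  have h1t : 1 ≤ Real.log t := by
    rw [Real.le_log_iff_exp_le ht0]
    exact (Real.exp_one_lt_d9.le.trans (by norm_num)).trans ht
  have hul : u ≤ Real.log t := max_le h1t (by linarith)
  have hte : t ≤ Real.exp (2 * u) := (Real.log_le_iff_le_exp ht0).1 hut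
  have h1 := TE_mono E (le_refl (0 : ℝ)) hte
  have h2 : TE E 0 (Real.exp (2 * u)) ≤ ∑ p ∈ pr 1 (Real.exp u), 1 / ab p ^ 2 := by
    have h3 : TE E 0 (Real.exp (2 * u)) =
        ∑ x ∈ (EP E 0 (Real.exp (2 * u))).map (Function.Embedding.subtype _), 1 / ab x ^ 2 := by
      rw [Finset.sum_map]
      unfold TE
      refine Finset.sum_congr rfl fun p _ => ?_
      rw [nm_eq_ab]
      rfl
    rw [h3]
    refine Finset.sum_le_sum_of_subset_of_nonneg ?_
      (fun p _ _ => one_div_nonneg.2 (sq_nonneg _))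
    intro x hx
    rw [Finset.mem_map] at hx
    obtain ⟨p, hp, rfl⟩ := hx
    rw [mem_EP] at hp
    change (p : GaussianInt) ∈ pr 1 (Real.exp u)
    rw [mem_pr]
    refine ⟨p.2, one_lt_ab_prime (P1_prime p), ?_⟩
    have h4 := hp.2.2
    rw [nm_eq_ab, two_mul, Real.exp_add, ← sq] at h4
    exact (sq_le_sq₀ (ab_nonneg _) (Real.exp_pos _).le).1 h4
  have h5 := (abs_le.1 (h u hu1)).2
  have h6 : Real.log u ≤ Real.log (Real.log t) := Real.log_le_log (by linarith) hul
  linarith

/-- the total is `o(log r)`. -/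
theorem TE_small (E : Set P1) (η : ℝ) (hη : 0 < η) : ∀ᶠ r : ℝ in atTop,
    TE E 0 r ≤ η * Real.log r := by
  obtain ⟨C, hC, h⟩ := TE_le_log
  have h1 : ∀ᶠ y : ℝ in atTop, Real.log y ≤ η / 2 * y := by
    have h2 := Real.isLittleO_log_id_atTop.bound (show 0 < η / 2 by positivity)
    filter_upwards [h2, eventually_ge_atTop 0] with y hy hy0
    rw [Real.norm_eq_abs, id, Real.norm_eq_abs, abs_of_nonneg hy0] at hy
    exact (le_abs_self _).trans hy
  have h3 : ∀ᶠ y : ℝ in atTop, C ≤ η / 2 * y := by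
    filter_upwards [eventually_ge_atTop (C / (η / 2))] with y hy
    rw [div_le_iff₀ (by positivity)] at hy
    linarith
  filter_upwards [Real.tendsto_log_atTop.eventually h1, Real.tendsto_log_atTop.eventually h3,
    eventually_ge_atTop 3] with r hr1 hr2 hr3
  have := h E r hr3
  linarith

private theorem TE_self (E : Set P1) (a : ℝ) : TE E a a = 0 := by
  unfold TE
  refine Finset.sum_eq_zero fun p hp => ?_
  rw [mem_EP] at hp
  exact absurd hp.2.2 (not_le.2 hp.2.1)

private theorem TE_steps {E : Set P1}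
    (h2 : Tendsto (fun t : ℝ => TE E (Real.sqrt t) t) atTop (𝓝 0)) {β : ℝ} (hβ : 0 < β) (N : ℕ) :
    Tendsto (fun r : ℝ => TE E (r ^ (β / 2 ^ N)) (r ^ β)) atTop (𝓝 0) := by
  induction N with
  | zero =>
    simp only [pow_zero, div_one, TE_self]
    exact tendsto_const_nhds
  | succ N ih =>
    have hpos : 0 < β / 2 ^ N := by positivity
    have h3 : Tendsto (fun r : ℝ => TE E (Real.sqrt (r ^ (β / 2 ^ N))) (r ^ (β / 2 ^ N)))
        atTop (𝓝 0) := h2.comp (tendsto_rpow_atTop hpos)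
    have h4 := h3.add ih
    rw [add_zero] at h4
    refine h4.congr' ?_
    filter_upwards [eventually_ge_atTop 1] with r hr
    have h5 : Real.sqrt (r ^ (β / 2 ^ N)) = r ^ (β / 2 ^ (N + 1)) := by
      rw [Real.sqrt_eq_rpow, ← Real.rpow_mul (by linarith)]
      congr 1
      rw [pow_succ]
      field_simp
    rw [h5, ← TE_add]
    · refine Real.rpow_le_rpow_of_exponent_le hr ?_
      rw [pow_succ]
      exact div_le_div_of_nonneg_left hβ.le (by positivity)
        (le_mul_of_one_le_right (by positivity) (by norm_num))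
    · refine Real.rpow_le_rpow_of_exponent_le hr ?_
      exact div_le_self hβ.le (one_le_pow₀ (by norm_num))

theorem TE_pow {E : Set P1} (h2 : Tendsto (fun t : ℝ => TE E (Real.sqrt t) t) atTop (𝓝 0))
    {α β : ℝ} (hα : 0 < α) (hβ : 0 < β) :
    Tendsto (fun r : ℝ => TE E (r ^ α) (r ^ β)) atTop (𝓝 0) := by
  obtain ⟨N, hN⟩ := pow_unbounded_of_one_lt (β / α) (one_lt_two : (1 : ℝ) < 2)
  have h3 : β / 2 ^ N ≤ α := by
    rw [div_lt_iff₀ hα] at hN
    rw [div_le_iff₀ (by positivity)]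
    linarith
  refine squeeze_zero' (Eventually.of_forall fun r => TE_nonneg _ _ _) ?_ (TE_steps h2 hβ N)
  filter_upwards [eventually_ge_atTop 1] with r hr
  exact TE_mono E (Real.rpow_le_rpow_of_exponent_le hr h3) le_rfl

end Pool.Agent.RSG
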